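import Pool.Agent.H13.En.Net

set_option autoImplicit false
set_option linter.unusedSectionVars false
set_option linter.unusedVariables false
open Finset Matrix

namespace Pool.Agent.H13.En

/-- parameter conditions -/
structure Par (m : ℕ) (e η : ℝ) : Prop where
  hm : 2 ≤ m
  e0 : 0 < e
  e1 : e ≤ 1 / 125
  ev : e ≤ (4 / 5) ^ m
  η0 : 0 < η
  η1 : η ≤ 1

noncomputable def ww (m : ℕ) (e : ℝ) (h : ℕ) : ℝ := if h = 0 then 1 else e ^ (m + h)

noncomputable def rho (m : ℕ) (η : ℝ) (h : ℕ) : ℝ := if h = m + 1 then η else 1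

noncomputable def CC (m : ℕ) (e η : ℝ) : Matrix (Fin (2 * m + 1)) (Fin (2 * m + 1)) ℝ :=
  cond (2 * m + 1) (fun h => rho m η h / 2 * ww m e h) (m + 1) ((1 - η) / 2 * ww m e (m + 1))

noncomputable def QQ (m : ℕ) (e η : ℝ) : Matrix (Fin (2 * m + 1)) (Fin (2 * m + 1)) ℝ :=
  gen (CC m e η) (fun x => ww m e x)

section
variable {m : ℕ} {e η : ℝ} (hP : Par m e η)
include hP

lemma ww_pos (h : ℕ) : 0 < ww m e h := by
  have := hP.e0
  unfold ww
  split_ifs
  · norm_num
  · positivity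

lemma rho_nonneg (h : ℕ) : 0 < rho m η h := by
  have := hP.η0
  unfold rho
  split_ifs
  · exact this
  · norm_num

lemma rho_le (h : ℕ) : rho m η h ≤ 1 := by
  have := hP.η1
  unfold rho
  split_ifs
  · exact this
  · norm_num

lemma CC_nonneg (x y : Fin (2 * m + 1)) : 0 ≤ CC m e η x y := by
  refine cond_nonneg _ _ (fun h => ?_) _ _ ?_ x y
  · have h1 := ww_pos hP h
    have h2 := rho_nonneg hP h
    positivity
  · have h1 := ww_pos hP (m + 1)
    have h2 := hP.η1
    have : 0 ≤ (1 - η) / 2 := by linarith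
    positivity

lemma e_le_one : e ≤ 1 := by
  have := hP.e1
  linarith

lemma epow_le {k : ℕ} : e ^ (k + 1) ≤ e := by
  rw [pow_succ]
  have h1 := e_le_one hP
  have h2 := hP.e0
  have h3 : e ^ k ≤ 1 := pow_le_one₀ h2.le h1
  nlinarith

lemma L0 (F : ℕ → ℝ) (x : Fin (2 * m + 1)) (hx : (x : ℕ) = 0) :
    (QQ m e η *ᵥ (fun y => F y)) x = e ^ (m + 1) / 2 * (F 1 - F 0) +
      (1 - η) / 2 * e ^ (2 * m + 1) * (F (m + 1) - F 0) := by
  have hm := hP.hm
  unfold QQ
  rw [gen_mulVec]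
  unfold CC
  rw [cond_sum]
  have e1 : ww m e x = 1 := by unfold ww; rw [if_pos hx]
  rw [e1, div_one, hx, if_pos (by omega), if_neg (by omega), if_pos rfl, if_pos (by omega),
    if_neg (by omega)]
  have e2 : rho m η (0 + 1) = 1 := by unfold rho; rw [if_neg (by omega)]
  have e3 : ww m e (0 + 1) = e ^ (m + 1) := by unfold ww; rw [if_neg (by omega)]
  have e4 : ww m e (m + 1) = e ^ (2 * m + 1) := by
    unfold ww
    rw [if_neg (by omega)]
    congr 1
    omega
  rw [e2, e3, e4]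
  simp only [zero_add, add_zero]
  ring

lemma L1 (F : ℕ → ℝ) (x : Fin (2 * m + 1)) (hx : (x : ℕ) ≠ 0) (hx2 : (x : ℕ) ≠ m + 1) :
    ∃ u : ℝ, 0 ≤ u ∧ u ≤ 1 ∧ (QQ m e η *ᵥ (fun y => F y)) x = 1 / 2 * (F (x - 1) - F x) +
      u * e / 2 * (F (x + 1) - F x) := by
  have hm := hP.hm
  refine ⟨if (x : ℕ) + 1 < 2 * m + 1 then rho m η (x + 1) else 0, ?_, ?_, ?_⟩
  · split_ifs
    · exact (rho_nonneg hP _).le
    · norm_num
  · split_ifs
    · exact rho_le hP _
    · norm_num
  · unfold QQ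
    rw [gen_mulVec]
    unfold CC
    rw [cond_sum]
    have e1 : ww m e x = e ^ (m + (x : ℕ)) := by unfold ww; rw [if_neg hx]
    have e2 : ww m e (x + 1) = e ^ (m + (x : ℕ)) * e := by
      unfold ww; rw [if_neg (by omega), ← pow_succ]; rfl
    have e3 : rho m η x = 1 := by unfold rho; rw [if_neg hx2]
    rw [if_pos (by omega : 1 ≤ (x : ℕ)), if_neg hx, if_neg hx2, add_zero, add_zero, e1, e2, e3]
    have h0 : e ^ (m + (x : ℕ)) ≠ 0 := pow_ne_zero _ hP.e0.ne'
    by_cases h : (x : ℕ) + 1 < 2 * m + 1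
    · rw [if_pos h, if_pos h]
      field_simp
      ring
    · rw [if_neg h, if_neg h]
      field_simp
      ring

lemma L2 (F : ℕ → ℝ) (x : Fin (2 * m + 1)) (hx : (x : ℕ) = m + 1) :
    ∃ u : ℝ, 0 ≤ u ∧ u ≤ 1 ∧ (QQ m e η *ᵥ (fun y => F y)) x = η / 2 * (F m - F (m + 1)) +
      (1 - η) / 2 * (F 0 - F (m + 1)) + u * e / 2 * (F (m + 2) - F (m + 1)) := by
  have hm := hP.hm
  refine ⟨rho m η (m + 2), (rho_nonneg hP _).le, rho_le hP _, ?_⟩
  · unfold QQ
    rw [gen_mulVec]
    unfold CC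
    rw [cond_sum]
    have e1 : ww m e (m + 1) = e ^ (2 * m + 1) := by
      unfold ww
      rw [if_neg (by omega)]
      congr 1
      omega
    have e2 : ww m e (m + 1 + 1) = e ^ (2 * m + 1) * e := by
      unfold ww; rw [if_neg (by omega), ← pow_succ]
      congr 1
      omega
    have e3 : rho m η (m + 1) = η := by unfold rho; rw [if_pos rfl]
    have e5 : m + 1 - 1 = m := by omega
    rw [hx, if_pos (by omega : 1 ≤ m + 1), if_neg (by omega : ¬ (m + 1 = 0)), if_pos rfl,
      if_pos (by omega : m + 1 + 1 < 2 * m + 1), if_pos (by omega : 0 < 2 * m + 1), add_zero, e1,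
      e2, e3, e5]
    have h0 : e ^ (2 * m + 1) ≠ 0 := pow_ne_zero _ hP.e0.ne'
    rw [show m + 1 + 1 = m + 2 by ring]
    field_simp
    ring

lemma CC_row (x : Fin (2 * m + 1)) : ∑ z, CC m e η x z ≤ ww m e x := by
  have hm := hP.hm
  have e0 := hP.e0
  have e1 := e_le_one hP
  have η0 := hP.η0
  have η1 := hP.η1
  set F : ℕ → ℝ := fun y => if y = (x : ℕ) then 0 else 1 with hF
  have h1 : (QQ m e η *ᵥ (fun y => F y)) x = (∑ z, CC m e η x z) / ww m e x := by
    unfold QQ
    rw [gen_mulVec]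
    congr 1
    refine Finset.sum_congr rfl (fun y _ => ?_)
    by_cases hxy : y = x
    · subst hxy
      have : CC m e η y y = 0 := by
        unfold CC cond
        have g1 : ¬ ((y : ℕ) = y + 1) := by omega
        have g2 : ¬ ((y : ℕ) = m + 1 ∧ (y : ℕ) = 0) := by omega
        rw [if_neg g1, if_neg g2]
        ring
      rw [this, zero_mul]
    · have hne : (y : ℕ) ≠ x := fun h => hxy (Fin.ext h)
      have g1 : F y = 1 := by simp only [hF]; rw [if_neg hne]
      have g2 : F x = 0 := by simp [hF]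
      rw [g1, g2]
      ring
  have hFx : F x = 0 := by simp [hF]
  have hF1 : ∀ y, F y ≤ 1 := by
    intro y
    simp only [hF]
    split_ifs <;> norm_num
  have hF0 : ∀ y, 0 ≤ F y := by
    intro y
    simp only [hF]
    split_ifs <;> norm_num
  have h2 : (QQ m e η *ᵥ (fun y => F y)) x ≤ 1 := by
    by_cases hx : (x : ℕ) = 0
    · rw [L0 hP F x hx]
      rw [hx] at hFx
      rw [hFx, sub_zero, sub_zero]
      have h3 : e ^ (m + 1) ≤ 1 := pow_le_one₀ e0.le e1
      have h4 : e ^ (2 * m + 1) ≤ 1 := pow_le_one₀ e0.le e1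
      have h5 : e ^ (m + 1) / 2 * F 1 ≤ 1 / 2 * 1 := by
        have := hF0 1
        have := hF1 1
        have : 0 ≤ e ^ (m + 1) := by positivity
        gcongr
      have h6 : (1 - η) / 2 * e ^ (2 * m + 1) * F (m + 1) ≤ 1 / 2 * 1 * 1 := by
        have := hF0 (m + 1)
        have := hF1 (m + 1)
        have : 0 ≤ 1 - η := by linarith
        gcongr
        linarith
      linarith
    · by_cases hx2 : (x : ℕ) = m + 1
      · obtain ⟨u, hu0, hu1, hL⟩ := L2 hP F x hx2
        rw [hL]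
        rw [hx2] at hFx
        rw [hFx, sub_zero, sub_zero, sub_zero]
        have h3 : η / 2 * F m ≤ η / 2 * 1 := mul_le_mul_of_nonneg_left (hF1 m) (by linarith)
        have h4 : (1 - η) / 2 * F 0 ≤ (1 - η) / 2 * 1 :=
          mul_le_mul_of_nonneg_left (hF1 0) (by linarith)
        have h5 : u * e / 2 * F (m + 2) ≤ 1 * 1 / 2 * 1 := by
          have := hF0 (m + 2)
          have := hF1 (m + 2)
          gcongr
        linarith
      · obtain ⟨u, hu0, hu1, hL⟩ := L1 hP F x hx hx2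
        rw [hL, hFx, sub_zero, sub_zero]
        have h3 : (1 : ℝ) / 2 * F (x - 1) ≤ 1 / 2 * 1 :=
          mul_le_mul_of_nonneg_left (hF1 _) (by norm_num)
        have h5 : u * e / 2 * F (x + 1) ≤ 1 * 1 / 2 * 1 := by
          have := hF0 ((x : ℕ) + 1)
          have := hF1 ((x : ℕ) + 1)
          gcongr
        linarith
  rw [h1, div_le_one (ww_pos hP _)] at h2
  exact h2

lemma MM_sto : Sto (1 + QQ m e η) :=
  gen_sto _ _ (CC_nonneg hP) (fun x => ww_pos hP x) (CC_row hP)

lemma MM_mulVec (F : Fin (2 * m + 1) → ℝ) (x : Fin (2 * m + 1)) :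
    ((1 + QQ m e η) *ᵥ F) x = F x + (QQ m e η *ᵥ F) x := by
  rw [Matrix.add_mulVec, Matrix.one_mulVec]
  rfl

end

/-- test functions -/
noncomputable def GG (h : ℕ) : ℝ := if h = 0 then 0 else (5 / 4) ^ h

noncomputable def GA (m h : ℕ) : ℝ := if h ≤ m then 0 else (5 / 4) ^ (h - m)

noncomputable def pp (m : ℕ) (η : ℝ) (h : ℕ) : ℝ := if h = 0 then 0 else if h ≤ m then 1 else η

noncomputable def vv (m : ℕ) (e η : ℝ) (h : ℕ) : ℝ :=
  if h = 0 then 8 * e ^ (m + 1) else if h ≤ m then (4 / 5) ^ h else η * (4 / 5) ^ h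

section
variable {m : ℕ} {e η : ℝ} (hP : Par m e η)
include hP

lemma GG_pos_step (x : Fin (2 * m + 1)) (hx : (x : ℕ) ≠ 0) :
    (QQ m e η *ᵥ (fun y : Fin (2 * m + 1) => GG y)) x ≤ -(99 / 1000) * GG x := by
  have e0 := hP.e0
  have e1 := hP.e1
  have η0 := hP.η0
  have η1 := hP.η1
  have key : ∀ u : ℝ, 0 ≤ u → u ≤ 1 → u * e ≤ 1 / 125 := by
    intro u h0 h1
    nlinarith
  obtain ⟨j, hj⟩ : ∃ j, (x : ℕ) = j + 1 := ⟨(x : ℕ) - 1, by omega⟩
  have hG1 : GG (j + 1) = 5 / 4 * (5 / 4) ^ j := by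
    unfold GG; rw [if_neg (by omega), pow_succ]; ring
  have hG2 : GG (j + 2) = 25 / 16 * (5 / 4) ^ j := by
    unfold GG; rw [if_neg (by omega), pow_succ, pow_succ]; ring
  have hG0 : GG j ≤ (5 / 4) ^ j := by
    unfold GG
    split_ifs
    · positivity
    · exact le_rfl
  have hy : (0 : ℝ) < (5 / 4) ^ j := by positivity
  by_cases hx2 : (x : ℕ) = m + 1
  · obtain ⟨u, hu0, hu1, hL⟩ := L2 hP GG x hx2
    have hjm : j = m := by omega
    subst hjm
    rw [hL, hj, hG1, hG2]
    have h0 : GG 0 = 0 := by unfold GG; simp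
    rw [h0]
    have hk := key u hu0 hu1
    set y : ℝ := (5 / 4) ^ j with hydef
    have h1 : η / 2 * (GG j - 5 / 4 * y) ≤ η / 2 * (y - 5 / 4 * y) := by
      apply mul_le_mul_of_nonneg_left _ (by linarith)
      linarith
    have h2 : u * e / 2 * (25 / 16 * y - 5 / 4 * y) ≤ 1 / 125 / 2 * (25 / 16 * y - 5 / 4 * y) := by
      apply mul_le_mul_of_nonneg_right _ (by linarith)
      linarith
    have h3 : η * y ≤ 1 * y := mul_le_mul_of_nonneg_right η1 hy.le
    nlinarith
  · obtain ⟨u, hu0, hu1, hL⟩ := L1 hP GG x hx hx2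
    have e5 : j + 1 - 1 = j := by omega
    rw [hL, hj, e5, hG1, show j + 1 + 1 = j + 2 by ring, hG2]
    have hk := key u hu0 hu1
    set y : ℝ := (5 / 4) ^ j with hydef
    have h2 : u * e / 2 * (25 / 16 * y - 5 / 4 * y) ≤ 1 / 125 / 2 * (25 / 16 * y - 5 / 4 * y) := by
      apply mul_le_mul_of_nonneg_right _ (by linarith)
      linarith
    nlinarith

lemma GG_zero_step (x : Fin (2 * m + 1)) (hx : (x : ℕ) = 0) :
    (QQ m e η *ᵥ (fun y : Fin (2 * m + 1) => GG y)) x ≤ e ^ m := by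
  have e0 := hP.e0
  have e1 := hP.e1
  have η0 := hP.η0
  have η1 := hP.η1
  rw [L0 hP GG x hx]
  have h0 : GG 0 = 0 := by unfold GG; simp
  have h1 : GG 1 = 5 / 4 := by unfold GG; simp
  have h2 : GG (m + 1) = (5 / 4) ^ (m + 1) := by unfold GG; rw [if_neg (by omega)]
  rw [h0, h1, h2, sub_zero, sub_zero]
  have hem : 0 < e ^ m := by positivity
  have h3 : e ^ (m + 1) = e ^ m * e := pow_succ _ _
  have h4 : e ^ (2 * m + 1) = e ^ m * e ^ (m + 1) := by rw [← pow_add]; congr 1; omega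
  have h5 : e ^ (m + 1) * (5 / 4) ^ (m + 1) ≤ 1 := by
    rw [← mul_pow]
    exact pow_le_one₀ (by positivity) (by linarith)
  have h6 : (1 - η) / 2 * e ^ (2 * m + 1) * (5 / 4) ^ (m + 1) =
      (1 - η) / 2 * (e ^ m * (e ^ (m + 1) * (5 / 4) ^ (m + 1))) := by
    rw [h4]; ring
  rw [h6]
  have h7 : (1 - η) / 2 * (e ^ m * (e ^ (m + 1) * (5 / 4) ^ (m + 1))) ≤ 1 / 2 * (e ^ m * 1) := by
    have : 0 ≤ 1 - η := by linarith
    gcongr
    linarith
  have h8 : e ^ m * e ≤ e ^ m * (1 / 125) := by gcongr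
  rw [h3] at h7 ⊢
  linarith

lemma GG_step (x : Fin (2 * m + 1)) :
    ((1 + QQ m e η) *ᵥ (fun y : Fin (2 * m + 1) => GG y)) x ≤ (1 - 99 / 1000) * GG x + e ^ m := by
  rw [MM_mulVec hP]
  have e0 := hP.e0
  have hem : 0 < e ^ m := by positivity
  by_cases hx : (x : ℕ) = 0
  · have h1 := GG_zero_step hP x hx
    have h0 : GG x = 0 := by unfold GG; rw [if_pos hx]
    rw [h0]
    linarith
  · have h1 := GG_pos_step hP x hx
    linarith

lemma GA_step (x : Fin (2 * m + 1)) :
    ((1 + QQ m e η) *ᵥ (fun y : Fin (2 * m + 1) => GA m y)) x ≤ (1 - 99 / 1000) * GA m x + e := by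
  have hm := hP.hm
  have e0 := hP.e0
  have e1 := hP.e1
  have η0 := hP.η0
  have η1 := hP.η1
  have key : ∀ u : ℝ, 0 ≤ u → u ≤ 1 → u * e ≤ 1 / 125 := by
    intro u h0 h1
    nlinarith
  have key' : ∀ u : ℝ, 0 ≤ u → u ≤ 1 → u * e ≤ e := by
    intro u h0 h1
    nlinarith
  have hlow : ∀ h, h ≤ m → GA m h = 0 := fun h hh => by unfold GA; rw [if_pos hh]
  have hm1 : GA m (m + 1) = 5 / 4 := by
    unfold GA; rw [if_neg (by omega)]
    simp
  have hm2 : GA m (m + 2) = 25 / 16 := by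
    unfold GA; rw [if_neg (by omega)]
    simp
    norm_num
  rw [MM_mulVec hP]
  suffices h : (QQ m e η *ᵥ (fun y : Fin (2 * m + 1) => GA m y)) x ≤ -(99 / 1000) * GA m x + e by linarith
  by_cases hx : (x : ℕ) = 0
  · rw [L0 hP (GA m) x hx, hx, hlow 1 (by omega), hlow 0 (by omega), hm1]
    have h4 := epow_le hP (k := 2 * m)
    have h5 : (1 - η) / 2 * e ^ (2 * m + 1) * (5 / 4 - 0) ≤ 1 / 2 * e * (5 / 4 - 0) := by
      gcongr
      linarith
    nlinarith
  · by_cases hx2 : (x : ℕ) = m + 1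
    · obtain ⟨u, hu0, hu1, hL⟩ := L2 hP (GA m) x hx2
      rw [hL, hx2, hlow m le_rfl, hlow 0 (by omega), hm1, hm2]
      have := key u hu0 hu1
      nlinarith
    · obtain ⟨u, hu0, hu1, hL⟩ := L1 hP (GA m) x hx hx2
      rw [hL]
      rcases lt_trichotomy (x : ℕ) m with h | h | h
      · rw [hlow _ (by omega : (x : ℕ) - 1 ≤ m), hlow _ h.le, hlow _ (by omega : (x : ℕ) + 1 ≤ m)]
        linarith
      · rw [h, hlow _ (by omega : m - 1 ≤ m), hlow _ le_rfl, hm1]
        have := key' u hu0 hu1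
        linarith
      · obtain ⟨j, hj⟩ : ∃ j, (x : ℕ) = m + j + 2 := ⟨(x : ℕ) - m - 2, by omega⟩
        have g1 : GA m (x - 1) = (5 / 4) ^ (j + 1) := by
          unfold GA; rw [if_neg (by omega)]; congr 1; omega
        have g2 : GA m x = 5 / 4 * (5 / 4) ^ (j + 1) := by
          unfold GA; rw [if_neg (by omega), ← pow_succ']; congr 1; omega
        have g3 : GA m (x + 1) = 25 / 16 * (5 / 4) ^ (j + 1) := by
          unfold GA
          rw [if_neg (by omega), show (x : ℕ) + 1 - m = (j + 1) + 2 by omega, pow_add]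
          ring
        rw [g1, g2, g3]
        have hk := key u hu0 hu1
        have hy : (0 : ℝ) < (5 / 4) ^ (j + 1) := by positivity
        set y : ℝ := (5 / 4) ^ (j + 1) with hydef
        have h2 : u * e / 2 * (25 / 16 * y - 5 / 4 * y) ≤
            1 / 125 / 2 * (25 / 16 * y - 5 / 4 * y) := by
          apply mul_le_mul_of_nonneg_right _ (by linarith)
          linarith
        nlinarith

lemma pp_le (x : Fin (2 * m + 1)) :
    ((1 + QQ m e η) *ᵥ (fun y : Fin (2 * m + 1) => pp m η y)) x ≤ pp m η x + e ^ m := by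
  have hm := hP.hm
  have e0 := hP.e0
  have e1 := e_le_one hP
  have η0 := hP.η0
  have η1 := hP.η1
  have hem : 0 < e ^ m := by positivity
  have p0 : pp m η 0 = 0 := by unfold pp; simp
  have pS : ∀ h, h ≠ 0 → h ≤ m → pp m η h = 1 := fun h h1 h2 => by
    unfold pp; rw [if_neg h1, if_pos h2]
  have pA : ∀ h, m < h → pp m η h = η := fun h h1 => by
    unfold pp; rw [if_neg (by omega), if_neg (by omega)]
  rw [MM_mulVec hP]
  suffices h : (QQ m e η *ᵥ (fun y : Fin (2 * m + 1) => pp m η y)) x ≤ e ^ m by linarith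
  by_cases hx : (x : ℕ) = 0
  · rw [L0 hP (pp m η) x hx, p0, pS 1 (by omega) (by omega), pA (m + 1) (by omega)]
    have h3 : e ^ (m + 1) ≤ e ^ m := pow_le_pow_of_le_one e0.le e1 (by omega)
    have h4 : e ^ (2 * m + 1) ≤ e ^ m := pow_le_pow_of_le_one e0.le e1 (by omega)
    have h5 : (1 - η) / 2 * e ^ (2 * m + 1) * (η - 0) ≤ 1 / 2 * e ^ m * (1 - 0) := by
      gcongr
      linarith
    linarith
  · by_cases hx2 : (x : ℕ) = m + 1
    · obtain ⟨u, hu0, hu1, hL⟩ := L2 hP (pp m η) x hx2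
      rw [hL, p0, pS m (by omega) le_rfl, pA (m + 1) (by omega), pA (m + 2) (by omega)]
      have : η / 2 * (1 - η) + (1 - η) / 2 * (0 - η) + u * e / 2 * (η - η) = 0 := by ring
      rw [this]
      exact hem.le
    · obtain ⟨u, hu0, hu1, hL⟩ := L1 hP (pp m η) x hx hx2
      rw [hL]
      have hd : pp m η (x - 1) ≤ pp m η x := by
        by_cases hx1 : (x : ℕ) ≤ m
        · rw [pS x hx hx1]
          by_cases h0 : (x : ℕ) - 1 = 0
          · rw [h0, p0]; norm_num
          · rw [pS _ h0 (by omega)]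
        · rw [pA x (by omega), pA _ (by omega)]
      have hu : pp m η (x + 1) ≤ pp m η x := by
        by_cases hx1 : (x : ℕ) ≤ m
        · rw [pS x hx hx1]
          by_cases h0 : (x : ℕ) + 1 ≤ m
          · rw [pS _ (by omega) h0]
          · rw [pA _ (by omega)]; exact η1
        · rw [pA x (by omega), pA _ (by omega)]
      have h1 : 0 ≤ u * e / 2 := by positivity
      have h2 := mul_le_mul_of_nonneg_left hu h1
      linarith

lemma le_pp (x : Fin (2 * m + 1)) :
    pp m η x - vv m e η x ≤ ((1 + QQ m e η) *ᵥ (fun y : Fin (2 * m + 1) => pp m η y)) x := by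
  have hm := hP.hm
  have e0 := hP.e0
  have e1 := hP.e1
  have η0 := hP.η0
  have η1 := hP.η1
  have hem : 0 < e ^ m := by positivity
  have p0 : pp m η 0 = 0 := by unfold pp; simp
  have pS : ∀ h, h ≠ 0 → h ≤ m → pp m η h = 1 := fun h h1 h2 => by
    unfold pp; rw [if_neg h1, if_pos h2]
  have pA : ∀ h, m < h → pp m η h = η := fun h h1 => by
    unfold pp; rw [if_neg (by omega), if_neg (by omega)]
  have vnn : ∀ h, 0 ≤ vv m e η h := by
    intro h
    unfold vv
    split_ifs <;> positivity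
  rw [MM_mulVec hP]
  suffices h : -vv m e η x ≤ (QQ m e η *ᵥ (fun y : Fin (2 * m + 1) => pp m η y)) x by linarith
  by_cases hx : (x : ℕ) = 0
  · rw [L0 hP (pp m η) x hx, p0, pS 1 (by omega) (by omega), pA (m + 1) (by omega)]
    have := vnn x
    have h3 : 0 ≤ e ^ (m + 1) / 2 * (1 - 0) := by positivity
    have h4 : 0 ≤ (1 - η) / 2 * e ^ (2 * m + 1) * (η - 0) := by
      have : 0 ≤ 1 - η := by linarith
      have : 0 ≤ η - 0 := by linarith
      positivity
    linarith
  · by_cases hx2 : (x : ℕ) = m + 1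
    · obtain ⟨u, hu0, hu1, hL⟩ := L2 hP (pp m η) x hx2
      rw [hL, p0, pS m (by omega) le_rfl, pA (m + 1) (by omega), pA (m + 2) (by omega)]
      have : η / 2 * (1 - η) + (1 - η) / 2 * (0 - η) + u * e / 2 * (η - η) = 0 := by ring
      rw [this]
      have := vnn x
      linarith
    · obtain ⟨u, hu0, hu1, hL⟩ := L1 hP (pp m η) x hx hx2
      rw [hL]
      by_cases hx1 : (x : ℕ) ≤ m
      · have hv : vv m e η x = (4 / 5) ^ (x : ℕ) := by unfold vv; rw [if_neg hx, if_pos hx1]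
        rw [pS x hx hx1, hv]
        by_cases h1 : (x : ℕ) = 1
        · rw [h1, pS (1 + 1) (by omega) (by omega)]
          simp only [Nat.sub_self, p0]
          norm_num
        · rw [pS (x - 1) (by omega) (by omega)]
          by_cases h0 : (x : ℕ) + 1 ≤ m
          · rw [pS _ (by omega) h0]
            have : (0 : ℝ) ≤ (4 / 5) ^ (x : ℕ) := by positivity
            linarith
          · have hxm : (x : ℕ) = m := by omega
            rw [pA _ (by omega), hxm]
            have hev := hP.ev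
            have h5 : u * e / 2 * (1 - η) ≤ 1 * e / 2 * (1 - 0) := by
              have : 0 ≤ 1 - η := by linarith
              gcongr
            linarith
      · rw [pA x (by omega), pA _ (by omega), pA _ (by omega)]
        have := vnn x
        linarith

lemma vv_step (h1 : 8 * e ^ (m + 1) ≤ 4 / 5)
    (h2 : 4 * e ^ (m + 1) ≤ 1 / 1000 * (η * (4 / 5) ^ (m + 1))) (x : Fin (2 * m + 1)) :
    ((1 + QQ m e η) *ᵥ (fun y : Fin (2 * m + 1) => vv m e η y)) x ≤ (1 + 126 / 1000) * vv m e η x := by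
  have hm := hP.hm
  have e0 := hP.e0
  have e1 := e_le_one hP
  have η0 := hP.η0
  have η1 := hP.η1
  have v0 : vv m e η 0 = 8 * e ^ (m + 1) := by unfold vv; simp
  have vS : ∀ h, h ≠ 0 → h ≤ m → vv m e η h = (4 / 5) ^ h := fun h h1 h2 => by
    unfold vv; rw [if_neg h1, if_pos h2]
  have vA : ∀ h, m < h → vv m e η h = η * (4 / 5) ^ h := fun h h1 => by
    unfold vv; rw [if_neg (by omega), if_neg (by omega)]
  rw [MM_mulVec hP]
  suffices h : (QQ m e η *ᵥ (fun y : Fin (2 * m + 1) => vv m e η y)) x ≤ 126 / 1000 * vv m e η x by linarith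
  by_cases hx : (x : ℕ) = 0
  · rw [L0 hP (vv m e η) x hx, hx, v0, vS 1 (by omega) (by omega), vA (m + 1) (by omega)]
    have h3 : 0 < e ^ (m + 1) := by positivity
    have h4 : e ^ (2 * m + 1) ≤ e ^ (m + 1) := pow_le_pow_of_le_one e0.le e1 (by omega)
    have h6 : η * (4 / 5) ^ (m + 1) ≤ 1 * 1 := by
      gcongr
      exact pow_le_one₀ (by norm_num) (by norm_num)
    have h5 : (1 - η) / 2 * e ^ (2 * m + 1) * (η * (4 / 5) ^ (m + 1) - 8 * e ^ (m + 1)) ≤
        1 / 2 * e ^ (m + 1) * 1 := by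
      rcases le_total 0 (η * (4 / 5) ^ (m + 1) - 8 * e ^ (m + 1)) with h | h
      · gcongr
        · linarith
        · linarith
      · have h7 : 0 ≤ (1 - η) / 2 * e ^ (2 * m + 1) := by
          have : 0 ≤ 1 - η := by linarith
          positivity
        nlinarith
    have h8 : e ^ (m + 1) / 2 * ((4 / 5) ^ 1 - 8 * e ^ (m + 1)) ≤ e ^ (m + 1) / 2 * 1 := by
      gcongr
      norm_num
      linarith
    linarith
  · by_cases hx2 : (x : ℕ) = m + 1
    · obtain ⟨u, hu0, hu1, hL⟩ := L2 hP (vv m e η) x hx2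
      rw [hL, hx2, v0, vS m (by omega) le_rfl, vA (m + 1) (by omega), vA (m + 2) (by omega)]
      have hy : (0 : ℝ) < (4 / 5) ^ (m + 1) := by positivity
      have g1 : ((4 : ℝ) / 5) ^ m = 5 / 4 * (4 / 5) ^ (m + 1) := by rw [pow_succ]; ring
      have g2 : ((4 : ℝ) / 5) ^ (m + 2) = 4 / 5 * (4 / 5) ^ (m + 1) := by
        rw [pow_succ _ (m + 1)]; ring
      rw [g1, g2]
      set y : ℝ := (4 / 5) ^ (m + 1) with hydef
      have h3 : u * e / 2 * (η * (4 / 5 * y) - η * y) ≤ 0 := by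
        have h4 : 0 ≤ u * e / 2 := by positivity
        have h5 : 0 < η * y := by positivity
        nlinarith
      have h6 : (1 - η) / 2 * (8 * e ^ (m + 1)) ≤ 1 / 2 * (8 * e ^ (m + 1)) := by
        gcongr
        linarith
      have h7 : η / 2 * (5 / 4 * y - η * y) + (1 - η) / 2 * (8 * e ^ (m + 1) - η * y) =
        1 / 8 * (η * y) + (1 - η) / 2 * (8 * e ^ (m + 1)) := by ring
      rw [h7]
      linarith
    · obtain ⟨u, hu0, hu1, hL⟩ := L1 hP (vv m e η) x hx hx2
      rw [hL]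
      have h4 : 0 ≤ u * e / 2 := by positivity
      obtain ⟨j, hj⟩ : ∃ j, (x : ℕ) = j + 1 := ⟨(x : ℕ) - 1, by omega⟩
      have e5 : j + 1 - 1 = j := by omega
      rw [hj, e5]
      have hy : (0 : ℝ) < (4 / 5) ^ (j + 1) := by positivity
      have g1 : ((4 : ℝ) / 5) ^ j = 5 / 4 * (4 / 5) ^ (j + 1) := by rw [pow_succ]; ring
      have g2 : ((4 : ℝ) / 5) ^ (j + 1 + 1) = 4 / 5 * (4 / 5) ^ (j + 1) := by
        rw [pow_succ _ (j + 1)]; ring
      by_cases hx1 : (x : ℕ) ≤ m
      · have hxv : vv m e η (j + 1) = (4 / 5) ^ (j + 1) := vS _ (by omega) (by omega)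
        have hup : vv m e η (j + 1 + 1) ≤ vv m e η (j + 1) := by
          rw [hxv]
          by_cases h0 : j + 1 + 1 ≤ m
          · rw [vS _ (by omega) h0, g2]; linarith
          · rw [vA _ (by omega), g2]
            nlinarith
        have h5 := mul_le_mul_of_nonneg_left (sub_nonpos.2 hup) h4
        have hdn : vv m e η j ≤ 5 / 4 * (4 / 5) ^ (j + 1) := by
          by_cases h0 : j = 0
          · subst h0
            rw [v0]
            linarith
          · rw [vS _ h0 (by omega), g1]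
        rw [hxv] at h5 ⊢
        linarith
      · have hxv : vv m e η (j + 1) = η * (4 / 5) ^ (j + 1) := vA _ (by omega)
        have hup : vv m e η (j + 1 + 1) ≤ vv m e η (j + 1) := by
          rw [hxv, vA _ (by omega), g2]
          nlinarith
        have h5 := mul_le_mul_of_nonneg_left (sub_nonpos.2 hup) h4
        have hdn : vv m e η j = η * (5 / 4 * (4 / 5) ^ (j + 1)) := by
          rw [vA _ (by omega), g1]
        rw [hdn]
        rw [hxv] at h5 ⊢
        have : 0 < η * (4 / 5) ^ (j + 1) := by positivity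
        linarith

end

end Pool.Agent.H13.En
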