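import Mathlib

set_option autoImplicit false
set_option linter.unusedSectionVars false
open Finset Matrix Filter Topology

namespace Pool.Agent.H13.En

variable {V : Type} [Fintype V] [DecidableEq V]

/-- relative entropy -/
noncomputable def relE (μ π : V → ℝ) : ℝ := ∑ y, μ y * Real.log (μ y / π y)

lemma relE_le (μ π L : V → ℝ) (h0 : ∀ y, 0 ≤ μ y) (h1 : ∑ y, μ y = 1) (hp : ∀ y, 0 < π y)
    (hL : ∀ y, -Real.log (π y) ≤ L y) : relE μ π ≤ ∑ y, μ y * L y := by
  refine Finset.sum_le_sum (fun y _ => ?_)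
  have h2 : μ y ≤ 1 := by
    rw [← h1]
    exact Finset.single_le_sum (f := μ) (fun z _ => h0 z) (Finset.mem_univ y)
  rcases (h0 y).eq_or_lt with h | h
  · rw [← h]; simp
  · refine mul_le_mul_of_nonneg_left ?_ h.le
    rw [Real.log_div h.ne' (hp y).ne']
    have := Real.log_nonpos h.le h2
    have := hL y
    linarith

lemma aux_log (u v r : ℝ) (hu : 0 ≤ u) (hv : 0 < v) (hr : 0 < r) :
    u * Real.log r + u - r * v ≤ u * Real.log (u / v) := by
  rcases hu.eq_or_lt with h | h
  · rw [← h]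
    have : 0 < r * v := by positivity
    simp only [zero_mul, zero_add]
    linarith
  · have h1 := Real.one_sub_inv_le_log_of_pos (show 0 < u / (r * v) by positivity)
    have h2 : Real.log (u / v) = Real.log (u / (r * v)) + Real.log r := by
      rw [← Real.log_mul (by positivity) hr.ne']
      congr 1
      field_simp
    have h3 : u * (1 - (u / (r * v))⁻¹) = u - r * v := by
      field_simp
    have h4 := mul_le_mul_of_nonneg_left h1 h.le
    rw [h3] at h4
    rw [h2]
    linarith

lemma le_relE (μ π : V → ℝ) (h0 : ∀ y, 0 ≤ μ y) (h1 : ∑ y, μ y = 1) (hp : ∀ y, 0 < π y)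
    (hp1 : ∑ y, π y = 1) (B : Finset V) (r : ℝ) (hr : 0 < r) :
    (∑ y ∈ B, μ y) * Real.log r - r * ∑ y ∈ B, π y ≤ relE μ π := by
  unfold relE
  rw [← Finset.sum_add_sum_compl B (fun y => μ y * Real.log (μ y / π y))]
  rw [← Finset.sum_add_sum_compl B μ] at h1
  rw [← Finset.sum_add_sum_compl B π] at hp1
  have hB : ∑ y ∈ B, (μ y * Real.log r + μ y - r * π y) ≤
      ∑ y ∈ B, μ y * Real.log (μ y / π y) :=
    Finset.sum_le_sum (fun y _ => aux_log _ _ _ (h0 y) (hp y) hr)
  have hB' : ∑ y ∈ Bᶜ, (μ y * Real.log 1 + μ y - 1 * π y) ≤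
      ∑ y ∈ Bᶜ, μ y * Real.log (μ y / π y) :=
    Finset.sum_le_sum (fun y _ => aux_log _ _ _ (h0 y) (hp y) one_pos)
  simp only [Real.log_one, mul_zero, zero_add, one_mul] at hB'
  rw [Finset.sum_sub_distrib, Finset.sum_add_distrib, ← Finset.sum_mul, ← Finset.mul_sum] at hB
  rw [Finset.sum_sub_distrib] at hB'
  have : 0 ≤ ∑ y ∈ B, π y := Finset.sum_nonneg (fun y _ => (hp y).le)
  linarith

lemma relE_tendsto (μ : ℕ → V → ℝ) (π : V → ℝ) (hp : ∀ y, 0 < π y)
    (h : ∀ y, Tendsto (fun k => μ k y) atTop (𝓝 (π y))) :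
    Tendsto (fun k => relE (μ k) π) atTop (𝓝 0) := by
  unfold relE
  have h1 : ∀ y ∈ (Finset.univ : Finset V), Tendsto (fun k => μ k y * Real.log (μ k y / π y)) atTop
      (𝓝 (π y * Real.log (π y / π y))) := by
    intro y _
    refine (h y).mul (Tendsto.log ((h y).div_const _) ?_)
    rw [div_self (hp y).ne']
    norm_num
  have h2 := tendsto_finsetSum _ h1
  have h3 : ∑ y : V, π y * Real.log (π y / π y) = 0 := by
    refine Finset.sum_eq_zero (fun y _ => ?_)
    rw [div_self (hp y).ne', Real.log_one, mul_zero]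
  rw [h3] at h2
  exact h2

/-- existence of a nonzero eigenvalue for a nonzero reversible generator -/
lemma exists_eig (Q : Matrix V V ℝ) (π : V → ℝ) (hp : ∀ x, 0 < π x)
    (hrev : ∀ x y, π x * Q x y = π y * Q y x) (h : Q ≠ 0) :
    ∃ r : ℝ, r ≠ 0 ∧ ∃ f : V → ℝ, f ≠ 0 ∧ (-Q) *ᵥ f = r • f := by
  set s : V → ℝ := fun x => Real.sqrt (π x) with hs
  have hs0 : ∀ x, 0 < s x := fun x => Real.sqrt_pos.2 (hp x)
  have hs2 : ∀ x, s x * s x = π x := fun x => Real.mul_self_sqrt (hp x).le
  set A : Matrix V V ℝ := fun x y => s x * (-Q x y) / s y with hA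
  have hAH : A.IsHermitian := by
    unfold Matrix.IsHermitian
    ext x y
    rw [Matrix.conjTranspose_apply]
    simp only [hA, star_trivial]
    rw [div_eq_div_iff (hs0 x).ne' (hs0 y).ne']
    have h1 := hrev x y
    rw [← hs2 x, ← hs2 y] at h1
    linarith
  have hA0 : A ≠ 0 := by
    intro h0
    apply h
    ext x y
    have h1 := congrFun (congrFun h0 x) y
    simp only [hA, Matrix.zero_apply] at h1
    rw [div_eq_zero_iff] at h1
    rcases h1 with h1 | h1
    · rcases mul_eq_zero.1 h1 with h2 | h2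
      · exact absurd h2 (hs0 x).ne'
      · simpa using h2
    · exact absurd h1 (hs0 y).ne'
  have h1 : hAH.eigenvalues ≠ 0 := fun h0 => hA0 (hAH.eigenvalues_eq_zero_iff.1 h0)
  obtain ⟨i, hi⟩ := Function.ne_iff.1 h1
  have hf := hAH.mulVec_eigenvectorBasis i
  set v : V → ℝ := ⇑(hAH.eigenvectorBasis i) with hv
  have hv0 : v ≠ 0 := by
    intro h0
    have h2 := hAH.eigenvectorBasis.toBasis.ne_zero i
    apply h2
    ext j
    have := congrFun h0 j
    simpa [hv] using this
  refine ⟨hAH.eigenvalues i, hi, fun x => v x / s x, ?_, ?_⟩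
  · intro h0
    apply hv0
    funext x
    have h2 := congrFun h0 x
    simp only [Pi.zero_apply, div_eq_zero_iff] at h2
    rcases h2 with h2 | h2
    · exact h2
    · exact absurd h2 (hs0 x).ne'
  · funext x
    have h2 := congrFun hf x
    simp only [Matrix.mulVec, dotProduct, Pi.smul_apply, smul_eq_mul, Matrix.neg_apply, hA] at h2 ⊢
    have h3 : s x * ∑ y, -Q x y * (v y / s y) = hAH.eigenvalues i * v x := by
      rw [← h2, Finset.mul_sum]
      refine Finset.sum_congr rfl (fun y _ => ?_)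
      have := (hs0 y).ne'
      field_simp
    have h4 := (hs0 x).ne'
    rw [mul_div_assoc', eq_div_iff h4, ← h3]
    ring

end Pool.Agent.H13.En
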