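import Mathlib

set_option autoImplicit false
set_option linter.unusedSectionVars false
open Finset Matrix

namespace Pool.Agent.H13.En

variable {V : Type} [Fintype V] [DecidableEq V]

lemma gap_aux (Q : Matrix V V ℝ) (π : V → ℝ) (hp : ∀ x, 0 < π x)
    (hrev : ∀ x y, π x * Q x y = π y * Q y x) (hoff : ∀ x y, x ≠ y → 0 ≤ Q x y)
    (hrow : ∀ x, ∑ y, Q x y = 0) (o : V) (G : V → ℝ) (hGo : G o = 0) (hG : ∀ x, x ≠ o → 0 < G x)
    (c : ℝ) (hQG : ∀ x, x ≠ o → (Q *ᵥ G) x ≤ -c * G x) (r : ℝ) (hr : r ≠ 0) (f : V → ℝ)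
    (hf : f ≠ 0) (hfe : (-Q) *ᵥ f = r • f) : c ≤ r := by
  -- mean zero
  have hmean : ∑ x, π x * f x = 0 := by
    have h1 : ∑ x, π x * ((-Q) *ᵥ f) x = 0 := by
      simp only [Matrix.mulVec, dotProduct, Matrix.neg_apply, Finset.mul_sum]
      rw [Finset.sum_comm]
      refine Finset.sum_eq_zero (fun y _ => ?_)
      have h2 : ∀ x, π x * (-Q x y * f y) = -(π y * f y) * Q y x := by
        intro x
        have := hrev x y
        linear_combination (-f y) * this
      simp only [h2]
      rw [← Finset.mul_sum, hrow, mul_zero]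
    rw [hfe] at h1
    simp only [Pi.smul_apply, smul_eq_mul] at h1
    have h3 : ∑ x, π x * (r * f x) = r * ∑ x, π x * f x := by
      rw [Finset.mul_sum]
      exact Finset.sum_congr rfl (fun x _ => by ring)
    rw [h3] at h1
    exact (mul_eq_zero.1 h1).resolve_left hr
  -- key claim for functions with `g o ≤ 0`
  have key : ∀ g : V → ℝ, g ≠ 0 → (-Q) *ᵥ g = r • g → ∑ x, π x * g x = 0 → g o ≤ 0 → c ≤ r := by
    intro g hg0 hge hgm hgo
    have hpos : ∃ x, 0 < g x := by
      by_contra hcon
      push Not at hcon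
      apply hg0
      funext x
      have h1 : ∀ x ∈ (Finset.univ : Finset V), π x * g x ≤ 0 := fun x _ =>
        mul_nonpos_of_nonneg_of_nonpos (hp x).le (hcon x)
      have h2 := (Finset.sum_eq_zero_iff_of_nonpos h1).1 hgm x (Finset.mem_univ x)
      exact (mul_eq_zero.1 h2).resolve_left (hp x).ne'
    obtain ⟨x0, hx0⟩ := hpos
    obtain ⟨xs, -, hxs⟩ := Finset.exists_max_image (Finset.univ : Finset V) (fun x => g x / G x)
      ⟨o, Finset.mem_univ o⟩
    have hx0o : x0 ≠ o := by
      rintro rfl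
      exact absurd hx0 (not_lt.2 hgo)
    have hM0 : 0 < g xs / G xs := lt_of_lt_of_le (div_pos hx0 (hG x0 hx0o))
      (hxs x0 (Finset.mem_univ x0))
    have hxso : xs ≠ o := by
      rintro rfl
      rw [hGo, div_zero] at hM0
      exact lt_irrefl _ hM0
    set Mx := g xs / G xs with hMx
    have hgxs : g xs = Mx * G xs := by
      rw [hMx, div_mul_cancel₀ _ (hG xs hxso).ne']
    have hle : ∀ x, g x ≤ Mx * G x := by
      intro x
      by_cases hx : x = o
      · rw [hx, hGo, mul_zero]; exact hgo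
      · have := hxs x (Finset.mem_univ x)
        rwa [div_le_iff₀ (hG x hx)] at this
    have h1 : (Q *ᵥ g) xs ≤ Mx * (Q *ᵥ G) xs := by
      simp only [Matrix.mulVec, dotProduct, Finset.mul_sum]
      refine Finset.sum_le_sum (fun y _ => ?_)
      by_cases hy : xs = y
      · rw [← hy, hgxs]
        apply le_of_eq
        ring
      · have := mul_le_mul_of_nonneg_left (hle y) (hoff xs y hy)
        linarith
    have h2 := congrFun hge xs
    rw [Matrix.neg_mulVec] at h2
    simp only [Pi.neg_apply, Pi.smul_apply, smul_eq_mul] at h2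
    have h3 := mul_le_mul_of_nonneg_left (hQG xs hxso) hM0.le
    have h4 : c * g xs ≤ r * g xs := by
      rw [← h2, hgxs]
      nlinarith
    have h5 : 0 < g xs := by
      rw [hgxs]
      exact mul_pos hM0 (hG xs hxso)
    exact le_of_mul_le_mul_right h4 h5
  rcases le_total (f o) 0 with h | h
  · exact key f hf hfe hmean h
  · refine key (-f) (neg_ne_zero.2 hf) ?_ ?_ ?_
    · rw [Matrix.mulVec_neg, hfe, smul_neg]
    · simp only [Pi.neg_apply, mul_neg, Finset.sum_neg_distrib, hmean, neg_zero]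
    · simp only [Pi.neg_apply]
      linarith

end Pool.Agent.H13.En
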