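import Pool.Agent.H13.En.Ch
import Pool.Agent.H13.En.Entr
import Pool.Agent.H13.En.Gap
import Pool.Agent.Results.MP_c130e3_pr.Defs

set_option autoImplicit false
set_option linter.unusedSectionVars false
set_option linter.unusedVariables false
open Finset Matrix

namespace Pool.Agent.H13.En

open Pool.Agent.Results.MP_c130e3_pr

noncomputable def ZZ (m : ℕ) (e : ℝ) : ℝ := ∑ x : Fin (2 * m + 1), ww m e x

noncomputable def qq (h : ℕ) : ℝ := if h = 0 then 0 else 1

noncomputable def PI (m : ℕ) (e : ℝ) (x : Fin (2 * m + 1)) : ℝ := ww m e x / ZZ m e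

noncomputable def HH (m : ℕ) (e η t : ℝ) : Matrix (Fin (2 * m + 1)) (Fin (2 * m + 1)) ℝ :=
  NormedSpace.exp (t • QQ m e η)

noncomputable def EN (m : ℕ) (e η t : ℝ) : ℝ := ⨆ x, relE (HH m e η t x) (PI m e)

section
variable {m : ℕ} {e η : ℝ} (hP : Par m e η)
include hP

lemma tail_le : ∑ x : Fin (2 * m), ww m e (x + 1) ≤ 2 * m * e ^ (m + 1) := by
  have e0 := hP.e0
  have e1 := e_le_one hP
  have h1 : ∀ x ∈ (Finset.univ : Finset (Fin (2 * m))), ww m e (x + 1) ≤ e ^ (m + 1) := by
    intro x _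
    unfold ww
    rw [if_neg (by omega)]
    exact pow_le_pow_of_le_one e0.le e1 (by omega)
  have h2 := Finset.sum_le_sum h1
  rw [Finset.sum_const, Finset.card_univ, Fintype.card_fin, nsmul_eq_mul] at h2
  push_cast at h2
  exact h2

lemma small : 2 * m * e ^ (m + 1) ≤ 1 := by
  have e0 := hP.e0
  have e1 := hP.e1
  have h1 : (m : ℝ) ≤ 2 ^ m := by exact_mod_cast Nat.lt_two_pow_self.le
  have h2 : (m : ℝ) * e ^ m ≤ 1 := by
    calc (m : ℝ) * e ^ m ≤ 2 ^ m * e ^ m := by gcongr
      _ = (2 * e) ^ m := by rw [mul_pow]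
      _ ≤ 1 := pow_le_one₀ (by positivity) (by linarith)
  rw [pow_succ]
  nlinarith

lemma ZZ_eq : ZZ m e = 1 + ∑ x : Fin (2 * m), ww m e (x + 1) := by
  unfold ZZ
  rw [Fin.sum_univ_succ]
  congr 1

lemma ZZ_ge : 1 ≤ ZZ m e := by
  rw [ZZ_eq hP]
  have : 0 ≤ ∑ x : Fin (2 * m), ww m e (x + 1) := Finset.sum_nonneg (fun x _ => (ww_pos hP _).le)
  linarith

lemma ZZ_le : ZZ m e ≤ 2 := by
  rw [ZZ_eq hP]
  have h1 := tail_le hP
  have h2 := small hP
  linarith

lemma QQ_nb (x y : Fin (2 * m + 1)) (h : (y : ℕ) = x + 1 ∨ (x : ℕ) = y + 1) :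
    0 < QQ m e η x y := by
  have hne : x ≠ y := by
    rintro rfl
    omega
  have η1 := hP.η1
  unfold QQ
  rw [gen_off _ _ x y hne]
  apply div_pos _ (ww_pos hP x)
  have hg : 0 ≤ (1 - η) / 2 * ww m e (m + 1) := by
    have := ww_pos hP (m + 1)
    have : 0 ≤ 1 - η := by linarith
    positivity
  have ha : ∀ h, 0 < rho m η h / 2 * ww m e h := by
    intro h
    have h1 := ww_pos hP h
    have h2 := rho_nonneg hP h
    positivity
  unfold CC cond
  have e3 : 0 ≤ (if (y : ℕ) = m + 1 ∧ (x : ℕ) = 0 then (1 - η) / 2 * ww m e (m + 1) else 0) := by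
    split_ifs
    · exact hg
    · exact le_rfl
  have e4 : 0 ≤ (if (x : ℕ) = m + 1 ∧ (y : ℕ) = 0 then (1 - η) / 2 * ww m e (m + 1) else 0) := by
    split_ifs
    · exact hg
    · exact le_rfl
  rcases h with h | h
  · rw [if_pos h]
    have e2 : 0 ≤ (if (x : ℕ) = y + 1 then rho m η x / 2 * ww m e x else 0) := by
      split_ifs
      · exact (ha _).le
      · exact le_rfl
    have := ha y
    linarith
  · rw [if_pos h]
    have e2 : 0 ≤ (if (y : ℕ) = x + 1 then rho m η y / 2 * ww m e y else 0) := by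
      split_ifs
      · exact (ha _).le
      · exact le_rfl
    have := ha x
    linarith

lemma QQ_irr (x y : Fin (2 * m + 1)) :
    Relation.ReflTransGen (fun a b => 0 < QQ m e η a b) x y := by
  have hdown : ∀ k : ℕ, ∀ x : Fin (2 * m + 1), (x : ℕ) = k →
      Relation.ReflTransGen (fun a b => 0 < QQ m e η a b) x 0 := by
    intro k
    induction k with
    | zero =>
      intro x hx
      have : x = 0 := Fin.ext hx
      rw [this]
    | succ k ih =>
      intro x hx
      have hxl := x.2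
      refine Relation.ReflTransGen.head (b := ⟨k, by omega⟩) (QQ_nb hP _ _ (Or.inr hx))
        (ih ⟨k, by omega⟩ rfl)
  have hup : ∀ k : ℕ, ∀ x : Fin (2 * m + 1), (x : ℕ) = k →
      Relation.ReflTransGen (fun a b => 0 < QQ m e η a b) 0 x := by
    intro k
    induction k with
    | zero =>
      intro x hx
      have : x = 0 := Fin.ext hx
      rw [this]
    | succ k ih =>
      intro x hx
      have hxl := x.2
      exact Relation.ReflTransGen.tail (ih ⟨k, by omega⟩ rfl)
        (QQ_nb hP _ _ (Or.inl hx))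
  exact (hdown _ x rfl).trans (hup _ y rfl)

omit hP in
lemma cond_sym' (x y : Fin (2 * m + 1)) : CC m e η x y = CC m e η y x := cond_symm _ _ _ _ x y

lemma PI_pos (x : Fin (2 * m + 1)) : 0 < PI m e x :=
  div_pos (ww_pos hP x) (by have := ZZ_ge hP; linarith)

lemma PI_sum : ∑ x, PI m e x = 1 := by
  unfold PI
  rw [← Finset.sum_div]
  have := ZZ_ge hP
  exact div_self (by unfold ZZ at this; linarith)

lemma PI_rev (x y : Fin (2 * m + 1)) :
    PI m e x * QQ m e η x y = PI m e y * QQ m e η y x := by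
  have h := gen_rev (CC m e η) (fun x : Fin (2 * m + 1) => ww m e x)
    (cond_symm _ _ _ _) (fun x => ww_pos hP x) x y
  have e1 : PI m e x * QQ m e η x y = (ww m e x * QQ m e η x y) / ZZ m e := by unfold PI; ring
  have e2 : PI m e y * QQ m e η y x = (ww m e y * QQ m e η y x) / ZZ m e := by unfold PI; ring
  rw [e1, e2]
  unfold QQ
  rw [h]

lemma QQ_off (x y : Fin (2 * m + 1)) (hxy : x ≠ y) : 0 ≤ QQ m e η x y := by
  unfold QQ
  rw [gen_off _ _ x y hxy]
  exact div_nonneg (CC_nonneg hP x y) (ww_pos hP x).le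

omit hP in
/-- the chain -/
noncomputable def mk (hP : Par m e η) : Chain where
  N := 2 * m
  Q := QQ m e η
  p := PI m e
  rate_nonneg := QQ_off hP
  row_sum := gen_row _ _
  irreducible := QQ_irr hP
  p_pos := PI_pos hP
  p_sum := PI_sum hP
  reversible := PI_rev hP

lemma heat_eq (t : ℝ) : HH m e η t = NormedSpace.exp (t • ((1 + QQ m e η) - 1)) := by
  unfold HH
  rw [add_sub_cancel_left]

lemma gap_ge : 99 / 1000 ≤ (mk hP).gap := by
  unfold Chain.gap
  have hm := hP.hm
  apply le_csInf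
  · have hQ : QQ m e η ≠ 0 := by
      intro h0
      have h1 := QQ_nb hP ⟨0, by omega⟩ ⟨1, by omega⟩ (Or.inl rfl)
      rw [h0] at h1
      exact lt_irrefl _ h1
    obtain ⟨r, hr, f, hf, hfe⟩ := exists_eig (QQ m e η) (PI m e) (PI_pos hP) (PI_rev hP) hQ
    exact ⟨r, hr, f, hf, hfe⟩
  · rintro r ⟨hr, f, hf, hfe⟩
    refine gap_aux (QQ m e η) (PI m e) (PI_pos hP) (PI_rev hP) (QQ_off hP)
      (gen_row _ _) (0 : Fin (2 * m + 1)) (fun x : Fin (2 * m + 1) => GG x) ?_ ?_ _ ?_ r hr f hf
      hfe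
    · unfold GG; simp
    · intro x hx
      have hx' : (x : ℕ) ≠ 0 := fun h => hx (Fin.ext h)
      simp only [GG]
      rw [if_neg hx']
      positivity
    · intro x hx
      have hx' : (x : ℕ) ≠ 0 := fun h => hx (Fin.ext h)
      exact GG_pos_step hP x hx'

/-- upper bound for the probability of not being at `0` -/
lemma hitU (t : ℝ) (ht : 0 ≤ t) (x : Fin (2 * m + 1)) :
    (HH m e η t *ᵥ (fun y : Fin (2 * m + 1) => qq y)) x ≤
      Real.exp (-(99 / 1000 * t)) * (5 / 4) ^ m + e / (99 / 1000) + η + e ^ m * Real.exp t := by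
  rw [heat_eq hP]
  have hS := MM_sto hP
  have e0 := hP.e0
  have η0 := hP.η0
  have hm := hP.hm
  have hH := heat_sto hS t ht
  have hem : 0 < e ^ m := by positivity
  have heme : e ^ m ≤ e := by
    obtain ⟨k, rfl⟩ : ∃ k, m = k + 1 := ⟨m - 1, by omega⟩
    exact epow_le hP
  have hexp : 0 < Real.exp t := Real.exp_pos t
  by_cases hx : (x : ℕ) ≤ m
  · have h1 := mulVec_mono hH.nn (f := fun y : Fin (2 * m + 1) => qq y)
      (g := fun y : Fin (2 * m + 1) => GG y) (fun y => by
        simp only [qq, GG]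
        split_ifs
        · exact le_rfl
        · exact one_le_pow₀ (by norm_num)) x
    have h2 := heatU hS (fun y : Fin (2 * m + 1) => GG y) (99 / 1000) (e ^ m) (by norm_num)
      (by norm_num) hem.le (GG_step hP) t ht x
    have h3 : GG x ≤ (5 / 4) ^ m := by
      unfold GG
      split_ifs
      · positivity
      · exact pow_le_pow_right₀ (by norm_num) hx
    have h4 := mul_le_mul_of_nonneg_left h3 (Real.exp_pos (-(99 / 1000 * t))).le
    have h5 : e ^ m / (99 / 1000) ≤ e / (99 / 1000) := by gcongr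
    have h6 : 0 ≤ e ^ m * Real.exp t := by positivity
    linarith
  · have h1 := mulVec_mono hH.nn (f := fun y : Fin (2 * m + 1) => qq y)
      (g := (fun y : Fin (2 * m + 1) => GA m y) + (fun y : Fin (2 * m + 1) => pp m η y)) (fun y => by
        simp only [qq, GA, pp, Pi.add_apply]
        by_cases h0 : (y : ℕ) = 0
        · rw [if_pos h0, if_pos h0, if_pos (by omega)]; norm_num
        · rw [if_neg h0, if_neg h0]
          by_cases h1 : (y : ℕ) ≤ m
          · rw [if_pos h1, if_pos h1]; norm_num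
          · rw [if_neg h1, if_neg h1]
            have : (1 : ℝ) ≤ (5 / 4) ^ ((y : ℕ) - m) := one_le_pow₀ (by norm_num)
            linarith) x
    rw [Matrix.mulVec_add, Pi.add_apply] at h1
    have h2 := heatU hS (fun y : Fin (2 * m + 1) => GA m y) (99 / 1000) e (by norm_num)
      (by norm_num) e0.le (GA_step hP) t ht x
    have h2' := heatU1 hS (fun y : Fin (2 * m + 1) => pp m η y) (e ^ m) hem.le (pp_le hP) t ht x
    have h3 : GA m x ≤ (5 / 4) ^ m := by
      unfold GA
      rw [if_neg hx]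
      have := x.2
      exact pow_le_pow_right₀ (by norm_num) (by omega)
    have h3' : pp m η x = η := by
      unfold pp; rw [if_neg (by omega), if_neg hx]
    have h4 := mul_le_mul_of_nonneg_left h3 (Real.exp_pos (-(99 / 1000 * t))).le
    rw [h3'] at h2'
    linarith

lemma hitU_mono (t₁ t δ : ℝ) (h1 : 0 ≤ t₁) (h2 : t₁ ≤ t)
    (h : ∀ x, (HH m e η t₁ *ᵥ (fun y : Fin (2 * m + 1) => qq y)) x ≤ δ)
    (x : Fin (2 * m + 1)) :
    (HH m e η t *ᵥ (fun y : Fin (2 * m + 1) => qq y)) x ≤ δ := by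
  have e1 : HH m e η t = HH m e η (t - t₁) * HH m e η t₁ := by
    unfold HH
    rw [← Matrix.exp_add_of_commute, ← add_smul, sub_add_cancel]
    exact ((Commute.refl _).smul_left _).smul_right _
  rw [e1, ← Matrix.mulVec_mulVec]
  have hH : Sto (HH m e η (t - t₁)) := by
    rw [heat_eq hP]
    exact heat_sto (MM_sto hP) _ (by linarith)
  have h3 := mulVec_mono hH.nn h x
  rw [hH.const] at h3
  exact h3

lemma hitL (h1 : 8 * e ^ (m + 1) ≤ 4 / 5)
    (h2 : 4 * e ^ (m + 1) ≤ 1 / 1000 * (η * (4 / 5) ^ (m + 1))) (t : ℝ) (ht : 0 ≤ t)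
    (x : Fin (2 * m + 1)) (hx : (x : ℕ) = 2 * m) :
    η - η * (4 / 5) ^ (2 * m) / (126 / 1000) * Real.exp (126 / 1000 * t) ≤
      (HH m e η t *ᵥ (fun y : Fin (2 * m + 1) => qq y)) x := by
  rw [heat_eq hP]
  have hS := MM_sto hP
  have hm := hP.hm
  have e0 := hP.e0
  have η0 := hP.η0
  have η1 := hP.η1
  have hH := heat_sto hS t ht
  have h3 := mulVec_mono hH.nn (f := fun y : Fin (2 * m + 1) => pp m η y)
    (g := fun y : Fin (2 * m + 1) => qq y) (fun y => by
      simp only [qq, pp]
      split_ifs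
      · exact le_rfl
      · exact le_rfl
      · exact η1) x
  have h4 := heatL hS (fun y : Fin (2 * m + 1) => pp m η y) (fun y : Fin (2 * m + 1) => vv m e η y)
    (126 / 1000) (by norm_num) (fun y => by
      simp only [vv]
      split_ifs <;> positivity) (vv_step hP h1 h2) (le_pp hP) t ht x
  have h5 : pp m η x = η := by
    unfold pp; rw [if_neg (by omega), if_neg (by omega)]
  have h6 : vv m e η x = η * (4 / 5) ^ (2 * m) := by
    unfold vv; rw [if_neg (by omega), if_neg (by omega), hx]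
  simp only [h5, h6] at h4
  linarith

lemma heatS (t : ℝ) (ht : 0 ≤ t) : Sto (HH m e η t) := by
  rw [heat_eq hP]
  exact heat_sto (MM_sto hP) _ ht

omit hP in
lemma ent_eq (t : ℝ) : EN m e η t = ⨆ x, relE (HH m e η t x) (PI m e) := rfl

lemma ent_le (t B : ℝ) (h : ∀ x, relE (HH m e η t x) (PI m e) ≤ B) : EN m e η t ≤ B := by
  rw [ent_eq]
  exact ciSup_le h

lemma le_ent (t B : ℝ) (x : Fin (2 * m + 1)) (h : B ≤ relE (HH m e η t x) (PI m e)) :
    B ≤ EN m e η t := by
  rw [ent_eq]
  exact le_ciSup_of_le (Set.finite_range _).bddAbove x h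

/-- entropy upper bound -/
lemma entU (t δ : ℝ) (ht : 0 ≤ t)
    (h : ∀ x, (HH m e η t *ᵥ (fun y : Fin (2 * m + 1) => qq y)) x ≤ δ) :
    EN m e η t ≤ Real.log 2 + 3 * m * (-Real.log e) * δ := by
  have e0 := hP.e0
  have e1 := e_le_one hP
  have hle : Real.log e ≤ 0 := Real.log_nonpos e0.le e1
  have hZ1 := ZZ_ge hP
  have hZ2 := ZZ_le hP
  refine ent_le hP t _ (fun x => ?_)
  have hS := heatS hP t ht
  have h1 := relE_le (HH m e η t x) (PI m e)
    (fun y : Fin (2 * m + 1) => Real.log 2 + 3 * m * (-Real.log e) * qq y) (hS.nn x) (hS.row x)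
    (PI_pos hP) (fun y => by
      show -Real.log (ww m e (y : Fin (2 * m + 1)) / ZZ m e) ≤ _
      rw [Real.log_div (ww_pos hP _).ne' (by linarith)]
      have h2 : Real.log (ZZ m e) ≤ Real.log 2 := Real.log_le_log (by linarith) hZ2
      have h3 : -Real.log (ww m e (y : Fin (2 * m + 1))) ≤ 3 * m * (-Real.log e) *
          qq (y : Fin (2 * m + 1)) := by
        unfold ww qq
        split_ifs
        · simp
        · rw [Real.log_pow]
          have h4 : ((m + (y : Fin (2 * m + 1)) : ℕ) : ℝ) ≤ 3 * m := by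
            have := (y : Fin (2 * m + 1)).2
            have h5 : m + (y : Fin (2 * m + 1)) ≤ 3 * m := by omega
            calc ((m + (y : Fin (2 * m + 1)) : ℕ) : ℝ) ≤ ((3 * m : ℕ) : ℝ) := by exact_mod_cast h5
              _ = 3 * m := by push_cast; ring
          have h6 : 0 ≤ -Real.log e := by linarith
          have h7 := mul_le_mul_of_nonneg_right h4 h6
          linarith
      linarith)
  refine h1.trans ?_
  have h2 : ∑ y : Fin (2 * m + 1), HH m e η t x y *
      (Real.log 2 + 3 * m * (-Real.log e) * qq y) =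
      Real.log 2 + 3 * m * (-Real.log e) *
        (HH m e η t *ᵥ (fun y : Fin (2 * m + 1) => qq y)) x := by
    simp only [mul_add, Finset.sum_add_distrib, ← Finset.sum_mul]
    have h3 : ∑ y : Fin (2 * m + 1), HH m e η t x y = 1 := hS.row x
    rw [h3, one_mul]
    congr 1
    simp only [Matrix.mulVec, dotProduct, Finset.mul_sum]
    exact Finset.sum_congr rfl (fun y _ => by ring)
  refine h2.le.trans ?_
  have h4 : 0 ≤ 3 * (m : ℝ) * (-Real.log e) := by
    have : 0 ≤ -Real.log e := by linarith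
    positivity
  have h5 := mul_le_mul_of_nonneg_left (h x) h4
  linarith

/-- entropy lower bound through the probability of not being at `0` -/
lemma entL (t r : ℝ) (ht : 0 ≤ t) (hr : 0 < r) (x : Fin (2 * m + 1)) :
    (HH m e η t *ᵥ (fun y : Fin (2 * m + 1) => qq y)) x * Real.log r -
      r * (2 * m * e ^ (m + 1)) ≤ EN m e η t := by
  have hS := heatS hP t ht
  have hZ1 := ZZ_ge hP
  refine le_ent hP t _ x ?_
  have h1 := le_relE (HH m e η t x) (PI m e) (hS.nn x) (hS.row x) (PI_pos hP) (PI_sum hP)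
    (Finset.univ.filter (fun y : Fin (2 * m + 1) => (y : ℕ) ≠ 0)) r hr
  refine le_trans ?_ h1
  have h2 : ∑ y ∈ Finset.univ.filter (fun y : Fin (2 * m + 1) => (y : ℕ) ≠ 0),
      HH m e η t x y = (HH m e η t *ᵥ (fun y : Fin (2 * m + 1) => qq y)) x := by
    simp only [Matrix.mulVec, dotProduct, Finset.sum_filter]
    refine Finset.sum_congr rfl (fun y _ => ?_)
    unfold qq
    by_cases h : (y : ℕ) = 0
    · rw [if_pos h, mul_zero, if_neg (not_not.2 h)]
    · rw [if_neg h, mul_one, if_pos h]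
  have h3 : ∑ y ∈ Finset.univ.filter (fun y : Fin (2 * m + 1) => (y : ℕ) ≠ 0), PI m e y ≤
      2 * m * e ^ (m + 1) := by
    have h4 : ∑ y ∈ Finset.univ.filter (fun y : Fin (2 * m + 1) => (y : ℕ) ≠ 0), PI m e y =
        ∑ y : Fin (2 * m + 1), (if (y : ℕ) ≠ 0 then ww m e y / ZZ m e else 0) := by
      rw [Finset.sum_filter]
      rfl
    rw [h4, Fin.sum_univ_succ]
    simp only [Fin.val_zero, ne_eq, not_true_eq_false, if_false, zero_add, Fin.val_succ]
    refine le_trans (Finset.sum_le_sum (fun y _ => ?_)) (tail_le hP)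
    rw [if_pos (by omega)]
    exact div_le_self (ww_pos hP _).le hZ1
  rw [h2]
  have h5 := mul_le_mul_of_nonneg_left h3 hr.le
  linarith

/-- entropy lower bound at small times -/
lemma entL0 (t r : ℝ) (ht : 0 ≤ t) (hr : 1 ≤ r) :
    Real.exp (-t) * Real.log r - r * e ^ (3 * m) ≤ EN m e η t := by
  have hm := hP.hm
  have hS := heatS hP t ht
  have hZ1 := ZZ_ge hP
  have x : Fin (2 * m + 1) := ⟨2 * m, by omega⟩
  have hxx : ∃ x : Fin (2 * m + 1), (x : ℕ) = 2 * m := ⟨⟨2 * m, by omega⟩, rfl⟩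
  obtain ⟨x, hx⟩ := hxx
  refine le_ent hP t _ x ?_
  have h1 := le_relE (HH m e η t x) (PI m e) (hS.nn x) (hS.row x) (PI_pos hP) (PI_sum hP)
    {x} r (by linarith)
  refine le_trans ?_ h1
  rw [Finset.sum_singleton, Finset.sum_singleton]
  have h2 : Real.exp (-t) ≤ HH m e η t x x := by
    rw [heat_eq hP]
    exact heat_diag (MM_sto hP) t ht x
  have h3 : PI m e x ≤ e ^ (3 * m) := by
    show ww m e x / ZZ m e ≤ _
    refine (div_le_self (ww_pos hP _).le hZ1).trans ?_
    unfold ww
    rw [if_neg (by omega), hx]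
    apply le_of_eq
    congr 1
    omega
  have h4 : 0 ≤ Real.log r := Real.log_nonneg hr
  have h5 := mul_le_mul_of_nonneg_right h2 h4
  have h6 := mul_le_mul_of_nonneg_left h3 (by linarith : 0 ≤ r)
  linarith

/-- the distance becomes arbitrarily small -/
lemma ent_small (t₁ : ℝ) (ht : 0 ≤ t₁)
    (h : ∀ x, (HH m e η t₁ *ᵥ (fun y : Fin (2 * m + 1) => qq y)) x ≤ 1 / 2) (ε : ℝ)
    (hε : 0 < ε) : ∃ t : ℝ, 0 ≤ t ∧ EN m e η t ≤ ε := by
  have hS := heatS hP t₁ ht
  set K := HH m e η t₁ with hK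
  have ho : ∀ x, 1 / 2 ≤ K x (0 : Fin (2 * m + 1)) := by
    intro x
    have h1 := h x
    have h2 : (K *ᵥ (fun y : Fin (2 * m + 1) => qq y)) x = 1 - K x (0 : Fin (2 * m + 1)) := by
      have h3 : ∑ y : Fin (2 * m + 1), K x y = 1 := hS.row x
      rw [← h3]
      simp only [Matrix.mulVec, dotProduct]
      rw [Fin.sum_univ_succ, Fin.sum_univ_succ]
      simp [qq]
    rw [h2] at h1
    linarith
  have hpow : ∀ k : ℕ, HH m e η ((k : ℝ) * t₁) = K ^ k := by
    intro k
    rw [hK]
    unfold HH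
    rw [← Matrix.exp_nsmul]
    congr 1
    rw [mul_smul, Nat.cast_smul_eq_nsmul]
  have hstat : ∀ (k : ℕ) (y : Fin (2 * m + 1)), ∑ x, PI m e x * (K ^ k) x y = PI m e y := by
    have hQ : ∀ y, ∑ x, PI m e x * QQ m e η x y = 0 := by
      intro y
      have : ∀ x, PI m e x * QQ m e η x y = PI m e y * QQ m e η y x := fun x => PI_rev hP x y
      simp only [this]
      rw [← Finset.mul_sum, show ∑ x, QQ m e η y x = 0 from gen_row _ _ y, mul_zero]
    have hM : ∀ (n : ℕ) y, ∑ x, PI m e x * ((1 + QQ m e η) ^ n) x y = PI m e y := by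
      intro n
      induction n with
      | zero =>
        intro y
        simp [Matrix.one_apply]
      | succ n ih =>
        intro y
        have h1 : ∀ x, PI m e x * ((1 + QQ m e η) ^ (n + 1)) x y =
            ∑ z, (PI m e x * ((1 + QQ m e η) ^ n) x z) * (1 + QQ m e η) z y := by
          intro x
          rw [pow_succ, Matrix.mul_apply, Finset.mul_sum]
          exact Finset.sum_congr rfl (fun z _ => by ring)
        simp only [h1]
        rw [Finset.sum_comm]
        simp only [← Finset.sum_mul, ih]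
        simp only [Matrix.add_apply, mul_add, Finset.sum_add_distrib, hQ, add_zero]
        simp [Matrix.one_apply]
    have hK1 : ∀ y, ∑ x, PI m e x * K x y = PI m e y := by
      intro y
      have h1 : HasSum (fun n : ℕ => ∑ x, PI m e x * (Real.exp (-t₁) * (t₁ ^ n / n.factorial) *
          ((1 + QQ m e η) ^ n) x y)) (∑ x, PI m e x * K x y) := by
        refine hasSum_sum (fun x _ => ?_)
        have h2 := heat_entry (1 + QQ m e η) t₁ x y
        rw [← heat_eq hP] at h2
        exact h2.mul_left _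
      have h3 := (pois t₁ 1).mul_left (PI m e y)
      rw [sub_self, zero_mul, Real.exp_zero, mul_one] at h3
      have h5 : (fun n : ℕ => ∑ x, PI m e x * (Real.exp (-t₁) * (t₁ ^ n / n.factorial) *
          ((1 + QQ m e η) ^ n) x y)) =
          fun n : ℕ => PI m e y * (Real.exp (-t₁) * (t₁ ^ n / n.factorial) * 1 ^ n) := by
        funext n
        have h4 : ∀ x, PI m e x * (Real.exp (-t₁) * (t₁ ^ n / n.factorial) *
            ((1 + QQ m e η) ^ n) x y) = (Real.exp (-t₁) * (t₁ ^ n / n.factorial)) *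
            (PI m e x * ((1 + QQ m e η) ^ n) x y) := fun x => by ring
        simp only [h4]
        rw [← Finset.mul_sum, hM]
        ring
      rw [h5] at h1
      exact h1.unique h3
    intro k
    induction k with
    | zero =>
      intro y
      simp [Matrix.one_apply]
    | succ n ih =>
      intro y
      have h1 : ∀ x, PI m e x * (K ^ (n + 1)) x y =
          ∑ z, (PI m e x * (K ^ n) x z) * K z y := by
        intro x
        rw [pow_succ, Matrix.mul_apply, Finset.mul_sum]
        exact Finset.sum_congr rfl (fun z _ => by ring)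
      simp only [h1]
      rw [Finset.sum_comm]
      simp only [← Finset.sum_mul, ih]
      exact hK1 y
  have hconv : ∀ x y : Fin (2 * m + 1), Filter.Tendsto (fun k : ℕ => (K ^ k) x y) Filter.atTop
      (nhds (PI m e y)) := by
    intro x y
    have hb : ∀ k : ℕ, |(K ^ k) x y - PI m e y| ≤ (1 / 2) ^ k := by
      intro k
      obtain ⟨a, ha⟩ := contr hS (0 : Fin (2 * m + 1)) ho y k
      have h1 : a ≤ PI m e y := by
        rw [← hstat k y]
        calc a = ∑ x, PI m e x * a := by rw [← Finset.sum_mul, (PI_sum hP), one_mul]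
          _ ≤ _ := Finset.sum_le_sum (fun x _ =>
            mul_le_mul_of_nonneg_left (ha x).1 ((PI_pos hP) x).le)
      have h2 : PI m e y ≤ a + (1 / 2) ^ k := by
        rw [← hstat k y]
        calc ∑ x, PI m e x * (K ^ k) x y ≤ ∑ x, PI m e x * (a + (1 / 2) ^ k) :=
              Finset.sum_le_sum (fun x _ =>
                mul_le_mul_of_nonneg_left (ha x).2 ((PI_pos hP) x).le)
          _ = _ := by rw [← Finset.sum_mul, (PI_sum hP), one_mul]
      have h3 := ha x
      rw [abs_le]
      constructor <;> linarith [h3.1, h3.2]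
    rw [tendsto_iff_norm_sub_tendsto_zero]
    refine squeeze_zero (fun k => norm_nonneg _) (fun k => ?_)
      (tendsto_pow_atTop_nhds_zero_of_lt_one (by norm_num : (0 : ℝ) ≤ 1 / 2) (by norm_num))
    rw [Real.norm_eq_abs]
    exact hb k
  have hrel : ∀ x : Fin (2 * m + 1), ∀ᶠ k : ℕ in Filter.atTop,
      relE ((K ^ k) x) (PI m e) < ε := by
    intro x
    exact (relE_tendsto (fun k => (K ^ k) x) (PI m e) (PI_pos hP) (hconv x)).eventually
      (gt_mem_nhds hε)
  obtain ⟨k, hk⟩ := (Filter.eventually_all.2 hrel).exists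
  refine ⟨k * t₁, by positivity, ent_le hP _ _ (fun x => ?_)⟩
  rw [hpow k]
  exact (hk x).le

end

end Pool.Agent.H13.En
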