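import Pool.Agent.H13.En.Ht

set_option autoImplicit false
set_option linter.unusedSectionVars false
set_option linter.unusedVariables false
open Finset Matrix Filter Topology

namespace Pool.Agent.H13.En

open Pool.Agent.Results.MP_c130e3_pr

lemma exp_nat (m : ℕ) : Real.exp (-(m : ℝ)) = Real.exp (-1) ^ m := by
  rw [← Real.exp_nat_mul]
  congr 1
  ring

lemma exp_m1 : Real.exp (-1) ≤ 2 / 5 := by
  have h1 : (1 + 1 + 1 ^ 2 / 2 : ℝ) ≤ Real.exp 1 := Real.quadratic_le_exp_of_nonneg zero_le_one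
  rw [Real.exp_neg, ← one_div]
  have h2 : (5 / 2 : ℝ) ≤ Real.exp 1 := by linarith
  calc 1 / Real.exp 1 ≤ 1 / (5 / 2) := one_div_le_one_div_of_le (by norm_num) h2
    _ = 2 / 5 := by norm_num

/-- all asymptotic facts about the parameter -/
structure Good (m : ℕ) : Prop where
  g0 : 10 ≤ m
  par : Par m (Real.exp (-(m : ℝ))) (1 / (m : ℝ) ^ 2)
  f2 : Real.exp (-(99 / 1000 * (5 * m / 2))) * (5 / 4) ^ m +
    Real.exp (-(m : ℝ)) / (99 / 1000) + 1 / (m : ℝ) ^ 2 +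
    Real.exp (-(m : ℝ)) ^ m * Real.exp (5 * m / 2) ≤ 2 / (m : ℝ) ^ 2
  f3a : 8 * Real.exp (-(m : ℝ)) ^ (m + 1) ≤ 4 / 5
  f3b : 4 * Real.exp (-(m : ℝ)) ^ (m + 1) ≤ 1 / 1000 * (1 / (m : ℝ) ^ 2 * (4 / 5) ^ (m + 1))
  f4 : (4 / 5 : ℝ) ^ (2 * m) / (126 / 1000) * Real.exp (126 / 1000 * (3 * m)) ≤ 1 / 2
  f5 : 2 * (m : ℝ) * Real.exp (-(m : ℝ)) ≤ 1 / 20

lemma ev_pow (k : ℕ) (r c : ℝ) (h0 : 0 ≤ r) (h1 : r < 1) (hc : 0 < c) :
    ∀ᶠ m : ℕ in atTop, (m : ℝ) ^ k * r ^ m < c :=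
  (tendsto_pow_const_mul_const_pow_of_lt_one k h0 h1).eventually (gt_mem_nhds hc)

lemma good_ev : ∀ᶠ m : ℕ in atTop, Good m := by
  have hx1 : Real.exp (-(99 / 400)) * (5 / 4) < 1 := by
    have h1 := Real.quadratic_le_exp_of_nonneg (x := 99 / 400) (by norm_num)
    have h2 : (5 / 4 : ℝ) < Real.exp (99 / 400) := by
      refine lt_of_lt_of_le ?_ h1
      norm_num
    rw [Real.exp_neg, inv_mul_lt_iff₀ (Real.exp_pos _)]
    linarith
  have hx2 : Real.exp (378 / 1000) * (16 / 25) < 1 := by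
    have h1 : Real.exp (189 / 1000) ≤ 1 / (1 - 189 / 1000) :=
      Real.exp_bound_div_one_sub_of_interval (by norm_num) (by norm_num)
    have h2 : Real.exp (378 / 1000) = Real.exp (189 / 1000) * Real.exp (189 / 1000) := by
      rw [← Real.exp_add]; norm_num
    have h3 := Real.exp_pos (189 / 1000)
    have h4 : Real.exp (189 / 1000) * Real.exp (189 / 1000) ≤
        (1 / (1 - 189 / 1000)) * (1 / (1 - 189 / 1000)) := by gcongr
    rw [h2]
    norm_num at h4 ⊢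
    linarith
  have he := exp_m1
  have he0 := Real.exp_pos (-1)
  have a1 := ev_pow 2 _ (1 / 3) (by positivity) hx1 (by norm_num)
  have a2 := ev_pow 2 (Real.exp (-1)) (1 / 100) he0.le (by linarith) (by norm_num)
  have a3 := ev_pow 2 (Real.exp (-1) * (5 / 4)) (1 / 10000) (by positivity) (by linarith)
    (by norm_num)
  have a4 := ev_pow 0 _ (1 / 100) (by positivity) hx2 (by norm_num)
  have a5 := ev_pow 1 (Real.exp (-1)) (1 / 100) he0.le (by linarith) (by norm_num)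
  filter_upwards [a1, a2, a3, a4, a5, eventually_ge_atTop 10] with m b1 b2 b3 b4 b5 hm
  have hmR : (10 : ℝ) ≤ m := by exact_mod_cast hm
  have hm2 : (0 : ℝ) < (m : ℝ) ^ 2 := by positivity
  have hee : Real.exp (-(m : ℝ)) = Real.exp (-1) ^ m := exp_nat m
  have he1 : Real.exp (-(m : ℝ)) ≤ 1 / 125 := by
    rw [hee]
    calc Real.exp (-1) ^ m ≤ (2 / 5) ^ m := pow_le_pow_left₀ he0.le he m
      _ ≤ (2 / 5) ^ 10 := pow_le_pow_of_le_one (by norm_num) (by norm_num) hm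
      _ ≤ 1 / 125 := by norm_num
  have hmul : Real.exp (-(m : ℝ)) ^ m * Real.exp (5 * m / 2) ≤ Real.exp (-1) ^ m := by
    rw [← Real.exp_nat_mul, ← Real.exp_add, ← hee]
    apply Real.exp_le_exp.2
    nlinarith
  have hpw : Real.exp (-(m : ℝ)) ^ (m + 1) ≤ Real.exp (-1) ^ m * Real.exp (-1) ^ (m + 1) := by
    rw [← Real.exp_nat_mul, ← Real.exp_nat_mul, ← Real.exp_nat_mul, ← Real.exp_add]
    apply Real.exp_le_exp.2
    push_cast
    nlinarith
  refine ⟨hm, ⟨by omega, Real.exp_pos _, he1, ?_, by positivity, ?_⟩, ?_, ?_, ?_, ?_, ?_⟩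
  · rw [hee]
    exact pow_le_pow_left₀ he0.le (by linarith) m
  · rw [div_le_one hm2]
    nlinarith
  · have c1 : Real.exp (-(99 / 1000 * (5 * m / 2))) * (5 / 4) ^ m =
        (Real.exp (-(99 / 400)) * (5 / 4)) ^ m := by
      rw [mul_pow, ← Real.exp_nat_mul]
      congr 2
      ring
    rw [c1, hee]
    have d1 : (Real.exp (-(99 / 400)) * (5 / 4)) ^ m ≤ 1 / 3 / (m : ℝ) ^ 2 := by
      rw [le_div_iff₀ hm2]; linarith
    have d2 : Real.exp (-1) ^ m ≤ 1 / 100 / (m : ℝ) ^ 2 := by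
      rw [le_div_iff₀ hm2]; linarith
    rw [hee] at hmul
    have d3 : Real.exp (-1) ^ m / (99 / 1000) ≤ 1 / 100 / (m : ℝ) ^ 2 / (99 / 1000) := by
      gcongr
    have d4 : 1 / 3 / (m : ℝ) ^ 2 + 1 / 100 / (m : ℝ) ^ 2 / (99 / 1000) + 1 / (m : ℝ) ^ 2 +
        1 / 100 / (m : ℝ) ^ 2 ≤ 2 / (m : ℝ) ^ 2 := by
      have : 1 / 3 / (m : ℝ) ^ 2 + 1 / 100 / (m : ℝ) ^ 2 / (99 / 1000) + 1 / (m : ℝ) ^ 2 +
        1 / 100 / (m : ℝ) ^ 2 = (1 / 3 + 1 / 100 / (99 / 1000) + 1 + 1 / 100) / (m : ℝ) ^ 2 := by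
        ring
      rw [this]
      gcongr
      norm_num
    linarith
  · have : Real.exp (-1) ^ m * Real.exp (-1) ^ (m + 1) ≤ (2 / 5) ^ 10 * 1 := by
      gcongr
      · calc Real.exp (-1) ^ m ≤ (2 / 5) ^ m := pow_le_pow_left₀ he0.le he m
          _ ≤ (2 / 5) ^ 10 := pow_le_pow_of_le_one (by norm_num) (by norm_num) hm
      · exact pow_le_one₀ he0.le (by linarith)
    norm_num at this
    linarith
  · have c1 : Real.exp (-1) ^ m * Real.exp (-1) ^ (m + 1) ≤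
        Real.exp (-1) ^ m * 1 := by
      gcongr
      exact pow_le_one₀ he0.le (by linarith)
    have c2 : Real.exp (-1) ^ m = (Real.exp (-1) * (5 / 4)) ^ m * (4 / 5) ^ m := by
      rw [← mul_pow]
      congr 1
      ring
    have c3 : (Real.exp (-1) * (5 / 4)) ^ m ≤ 1 / 10000 / (m : ℝ) ^ 2 := by
      rw [le_div_iff₀ hm2]; linarith
    have hy : (0 : ℝ) < (4 / 5) ^ m := by positivity
    have c4 := mul_le_mul_of_nonneg_right c3 hy.le
    rw [← c2] at c4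
    rw [pow_succ (4 / 5 : ℝ) m]
    have c5 : 1 / 10000 / (m : ℝ) ^ 2 * (4 / 5) ^ m = 1 / 10000 * (1 / (m : ℝ) ^ 2 * (4 / 5) ^ m) := by
      ring
    have c6 : 1 / 1000 * (1 / (m : ℝ) ^ 2 * ((4 / 5) ^ m * (4 / 5))) =
        8 / 10000 * (1 / (m : ℝ) ^ 2 * (4 / 5) ^ m) := by ring
    rw [c5] at c4
    rw [c6]
    have : 0 < 1 / (m : ℝ) ^ 2 * (4 / 5) ^ m := by positivity
    linarith
  · have c1 : (4 / 5 : ℝ) ^ (2 * m) / (126 / 1000) * Real.exp (126 / 1000 * (3 * m)) =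
        (Real.exp (378 / 1000) * (16 / 25)) ^ m / (126 / 1000) := by
      rw [mul_pow, ← Real.exp_nat_mul, pow_mul]
      have : Real.exp (126 / 1000 * (3 * m)) = Real.exp (m * (378 / 1000)) := by
        congr 1
        ring
      rw [this]
      norm_num
      ring
    rw [c1]
    rw [pow_zero, one_mul] at b4
    rw [div_le_iff₀ (by norm_num)]
    linarith
  · rw [hee]
    rw [pow_one] at b5
    linarith

section
variable {m : ℕ} (hG : Good m)
include hG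

lemma up_hit (t : ℝ) (ht : 5 * m / 2 ≤ t) (x : Fin (2 * m + 1)) :
    (HH m (Real.exp (-(m : ℝ))) (1 / (m : ℝ) ^ 2) t *ᵥ (fun y : Fin (2 * m + 1) => qq y)) x ≤
      2 / (m : ℝ) ^ 2 := by
  refine hitU_mono hG.par (5 * m / 2) t _ (by positivity) ht (fun x => ?_) x
  exact (hitU hG.par (5 * m / 2) (by positivity) x).trans hG.f2

lemma up_ent (t : ℝ) (ht : 5 * m / 2 ≤ t) :
    EN m (Real.exp (-(m : ℝ))) (1 / (m : ℝ) ^ 2) t ≤ 7 := by
  have hm : (10 : ℝ) ≤ m := by exact_mod_cast hG.g0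
  have h0 : 0 ≤ t := le_trans (by positivity) ht
  have h1 := entU hG.par t (2 / (m : ℝ) ^ 2) h0 (up_hit hG t ht)
  rw [Real.log_exp, neg_neg] at h1
  have h2 : 3 * (m : ℝ) * m * (2 / (m : ℝ) ^ 2) = 6 := by
    field_simp
    norm_num
  have h3 : Real.log 2 ≤ 1 := by
    have := Real.log_two_lt_d9
    linarith
  linarith

lemma low_ent (t : ℝ) (ht0 : 0 ≤ t) (ht : t ≤ 3 * m) :
    1 / 5 ≤ EN m (Real.exp (-(m : ℝ))) (1 / (m : ℝ) ^ 2) t := by
  have hg := hG.g0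
  have hm : (10 : ℝ) ≤ m := by exact_mod_cast hG.g0
  have h1 := entL hG.par t (Real.exp ((m : ℝ) ^ 2 / 2)) ht0 (Real.exp_pos _)
    ⟨2 * m, by omega⟩
  have h2 := hitL hG.par hG.f3a hG.f3b t ht0 ⟨2 * m, by omega⟩ rfl
  have h3 : Real.exp (126 / 1000 * t) ≤ Real.exp (126 / 1000 * (3 * m)) :=
    Real.exp_le_exp.2 (by linarith)
  have h4 : 1 / (m : ℝ) ^ 2 * (4 / 5) ^ (2 * m) / (126 / 1000) * Real.exp (126 / 1000 * t) ≤
      1 / (m : ℝ) ^ 2 * (1 / 2) := by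
    calc 1 / (m : ℝ) ^ 2 * (4 / 5) ^ (2 * m) / (126 / 1000) * Real.exp (126 / 1000 * t) =
        1 / (m : ℝ) ^ 2 * ((4 / 5) ^ (2 * m) / (126 / 1000) * Real.exp (126 / 1000 * t)) := by ring
      _ ≤ 1 / (m : ℝ) ^ 2 * ((4 / 5) ^ (2 * m) / (126 / 1000) *
          Real.exp (126 / 1000 * (3 * m))) := by gcongr
      _ ≤ 1 / (m : ℝ) ^ 2 * (1 / 2) := by
        gcongr
        exact hG.f4
  rw [Real.log_exp] at h1
  set P := (HH m (Real.exp (-(m : ℝ))) (1 / (m : ℝ) ^ 2) t *ᵥ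
    (fun y : Fin (2 * m + 1) => qq y)) ⟨2 * m, by omega⟩ with hP
  have h5 : 1 / (m : ℝ) ^ 2 * (1 / 2) ≤ P := by linarith
  have h6 : 1 / 4 ≤ P * ((m : ℝ) ^ 2 / 2) := by
    calc (1 / 4 : ℝ) = 1 / (m : ℝ) ^ 2 * (1 / 2) * ((m : ℝ) ^ 2 / 2) := by field_simp; norm_num
      _ ≤ P * ((m : ℝ) ^ 2 / 2) := by gcongr
  have h7 : Real.exp ((m : ℝ) ^ 2 / 2) * (2 * m * Real.exp (-(m : ℝ)) ^ (m + 1)) ≤ 1 / 20 := by
    have h8 : Real.exp ((m : ℝ) ^ 2 / 2) * Real.exp (-(m : ℝ)) ^ (m + 1) ≤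
        Real.exp (-(m : ℝ)) := by
      rw [← Real.exp_nat_mul, ← Real.exp_add]
      apply Real.exp_le_exp.2
      push_cast
      nlinarith
    have h9 := mul_le_mul_of_nonneg_left h8 (show (0 : ℝ) ≤ 2 * m by positivity)
    have := hG.f5
    linarith
  linarith

lemma low0_ent (t : ℝ) (ht0 : 0 ≤ t) :
    Real.exp (-t) * (m : ℝ) ^ 2 - 1 ≤ EN m (Real.exp (-(m : ℝ))) (1 / (m : ℝ) ^ 2) t := by
  have hm : (10 : ℝ) ≤ m := by exact_mod_cast hG.g0
  have h1 := entL0 hG.par t (Real.exp ((m : ℝ) ^ 2)) ht0 (Real.one_le_exp (by positivity))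
  rw [Real.log_exp] at h1
  have h2 : Real.exp ((m : ℝ) ^ 2) * Real.exp (-(m : ℝ)) ^ (3 * m) ≤ 1 := by
    rw [← Real.exp_nat_mul, ← Real.exp_add]
    apply Real.exp_le_one_iff.2
    push_cast
    nlinarith
  linarith

lemma small_ent (ε : ℝ) (hε : 0 < ε) :
    ∃ t : ℝ, 0 ≤ t ∧ EN m (Real.exp (-(m : ℝ))) (1 / (m : ℝ) ^ 2) t ≤ ε := by
  have hm : (10 : ℝ) ≤ m := by exact_mod_cast hG.g0
  refine ent_small hG.par (5 * m / 2) (by positivity) (fun x => ?_) ε hε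
  refine (up_hit hG _ le_rfl x).trans ?_
  rw [div_le_div_iff₀ (by positivity) (by norm_num)]
  nlinarith

end

theorem main : ∃ K : ℕ → Chain, supStart K = ⊤ ∧ ∀ e : ℝ, 0 < e →
    (∀ n, ∃ t : ℝ, 0 ≤ t ∧ (K n).ent t ≤ e) ∧ Cond1 K e ∧ ¬ Cond2 K e ∧ ¬ Cond3 K e := by
  obtain ⟨M0, hM0⟩ := eventually_atTop.1 good_ev
  have hG : ∀ n, Good (n + M0) := fun n => hM0 _ (by omega)
  set K : ℕ → Chain := fun n => mk (hG n).par with hK
  have hEN : ∀ n t, (K n).ent t = EN (n + M0) (Real.exp (-((n + M0 : ℕ) : ℝ)))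
      (1 / ((n + M0 : ℕ) : ℝ) ^ 2) t := fun n t => rfl
  have hgap : ∀ n, 99 / 1000 ≤ (K n).gap := fun n => gap_ge (hG n).par
  have hgap0 : ∀ n, 0 < (K n).gap := fun n => lt_of_lt_of_le (by norm_num) (hgap n)
  have hmt : Tendsto (fun n : ℕ => ((n + M0 : ℕ) : ℝ)) atTop atTop :=
    tendsto_natCast_atTop_atTop.comp (tendsto_add_atTop_nat M0)
  -- start value
  have hstart : Tendsto (fun n => (K n).ent 0) atTop atTop := by
    refine tendsto_atTop_mono (fun n => ?_) hmt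
    rw [hEN]
    have h1 := low0_ent (hG n) 0 le_rfl
    rw [neg_zero, Real.exp_zero, one_mul] at h1
    have h2 : (10 : ℝ) ≤ ((n + M0 : ℕ) : ℝ) := by exact_mod_cast (hG n).g0
    nlinarith
  have hsup : supStart K = ⊤ := by
    unfold supStart
    apply Tendsto.limsup_eq
    exact EReal.tendsto_coe_nhds_top_iff.2 hstart
  have hne : ∀ e : ℝ, 0 < e → ∀ n, ∃ t : ℝ, 0 ≤ t ∧ (K n).ent t ≤ e := fun e he n =>
    small_ent (hG n) e he
  have hmix0 : ∀ e n, 0 ≤ (K n).mix e := fun e n => Real.sInf_nonneg (fun t ht => ht.1)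
  have hmix : ∀ e : ℝ, 0 < e → Tendsto (fun n => (K n).mix e) atTop atTop := by
    intro e he
    rw [tendsto_atTop]
    intro T
    have h1 : ∀ᶠ n : ℕ in atTop, Real.exp T * (e + 2) ≤ ((n + M0 : ℕ) : ℝ) :=
      hmt.eventually_ge_atTop _
    filter_upwards [h1] with n hn
    unfold Chain.mix
    apply le_csInf
    · exact hne e he n
    · rintro t ⟨ht0, ht⟩
      by_contra hcon
      push Not at hcon
      rw [hEN] at ht
      have h2 := low0_ent (hG n) t ht0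
      have h3 : (10 : ℝ) ≤ ((n + M0 : ℕ) : ℝ) := by exact_mod_cast (hG n).g0
      have h4 : Real.exp (-T) ≤ Real.exp (-t) := Real.exp_le_exp.2 (by linarith)
      have h5 : e + 2 ≤ Real.exp (-T) * ((n + M0 : ℕ) : ℝ) := by
        rw [Real.exp_neg, ← div_eq_inv_mul, le_div_iff₀ (Real.exp_pos T)]
        linarith
      have h6 : Real.exp (-T) * ((n + M0 : ℕ) : ℝ) ≤ Real.exp (-t) * ((n + M0 : ℕ) : ℝ) ^ 2 := by
        have : ((n + M0 : ℕ) : ℝ) ≤ ((n + M0 : ℕ) : ℝ) ^ 2 := by nlinarith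
        gcongr
      linarith
  refine ⟨K, hsup, fun e he => ⟨hne e he, ?_, ?_, ?_⟩⟩
  · -- condition (1)
    unfold Cond1
    refine tendsto_atTop_mono (fun n => ?_) ((hmix e he).const_mul_atTop
      (show (0 : ℝ) < 99 / 1000 by norm_num))
    exact mul_le_mul_of_nonneg_right (hgap n) (hmix0 e n)
  · -- not (2)
    intro h
    obtain ⟨h1, h2⟩ := h (1 / 20) (by norm_num) (by norm_num)
    rw [hsup] at h2
    have h3 := h1.eventually (gt_mem_nhds (show (0 : ℝ) < 1 / 5 by norm_num))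
    have h4 := (EReal.tendsto_coe_nhds_top_iff.1 h2).eventually_gt_atTop 7
    obtain ⟨n, hn3, hn4⟩ := (h3.and h4).exists
    have h5 : (10 : ℝ) ≤ ((n + M0 : ℕ) : ℝ) := by exact_mod_cast (hG n).g0
    rw [hEN] at hn3 hn4
    have h6 : 3 * ((n + M0 : ℕ) : ℝ) < (1 + 1 / 20) * (K n).mix e := by
      by_contra hcon
      push Not at hcon
      have := low_ent (hG n) ((1 + 1 / 20) * (K n).mix e)
        (mul_nonneg (by norm_num) (hmix0 e n)) hcon
      linarith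
    have h7 : (1 - 1 / 20) * (K n).mix e < 5 * ((n + M0 : ℕ) : ℝ) / 2 := by
      by_contra hcon
      push Not at hcon
      have := up_ent (hG n) ((1 - 1 / 20) * (K n).mix e) hcon
      linarith
    linarith
  · -- not (3)
    rintro ⟨-, h1, h2⟩
    rw [hsup] at h2
    have h3 : ∀ᶠ c : ℝ in atTop, limsup (fun n => (((K n).ent ((K n).mix e + c *
        ((K n).gap)⁻¹) : ℝ) : EReal)) atTop < ((1 / 5 : ℝ) : EReal) := by
      refine h1.eventually (gt_mem_nhds ?_)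
      exact_mod_cast (show (0 : ℝ) < 1 / 5 by norm_num)
    have h4 : ∀ᶠ c : ℝ in atBot, ((7 : ℝ) : EReal) < liminf (fun n => (((K n).ent ((K n).mix e +
        c * ((K n).gap)⁻¹) : ℝ) : EReal)) atTop :=
      h2.eventually (lt_mem_nhds (EReal.coe_lt_top 7))
    obtain ⟨c, hc, hc0⟩ := (h3.and (eventually_ge_atTop 0)).exists
    obtain ⟨c', hc'⟩ := h4.exists
    have h5 := eventually_lt_of_limsup_lt hc
    have h6 := eventually_lt_of_lt_liminf hc'
    have h7 : ∀ᶠ n : ℕ in atTop, (2 * (c - c') + 1) / (99 / 1000) < ((n + M0 : ℕ) : ℝ) :=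
      hmt.eventually_gt_atTop _
    obtain ⟨n, ⟨hn5, hn6⟩, hn7⟩ := ((h5.and h6).and h7).exists
    have hn5' : (K n).ent ((K n).mix e + c * ((K n).gap)⁻¹) < 1 / 5 := by exact_mod_cast hn5
    have hn6' : 7 < (K n).ent ((K n).mix e + c' * ((K n).gap)⁻¹) := by exact_mod_cast hn6
    rw [hEN] at hn5' hn6'
    have hm10 : (10 : ℝ) ≤ ((n + M0 : ℕ) : ℝ) := by exact_mod_cast (hG n).g0
    have hb0 : 0 < ((K n).gap)⁻¹ := inv_pos.2 (hgap0 n)
    have hb1 : ((K n).gap)⁻¹ ≤ 1 / (99 / 1000) := by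
      rw [← one_div]
      exact one_div_le_one_div_of_le (by norm_num) (hgap n)
    have h8 : 3 * ((n + M0 : ℕ) : ℝ) < (K n).mix e + c * ((K n).gap)⁻¹ := by
      by_contra hcon
      push Not at hcon
      have := low_ent (hG n) ((K n).mix e + c * ((K n).gap)⁻¹)
        (by have := hmix0 e n; positivity) hcon
      linarith
    have h9 : (K n).mix e + c' * ((K n).gap)⁻¹ < 5 * ((n + M0 : ℕ) : ℝ) / 2 := by
      by_contra hcon
      push Not at hcon
      have := up_ent (hG n) _ hcon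
      linarith
    have h10 : ((n + M0 : ℕ) : ℝ) / 2 < (c - c') * ((K n).gap)⁻¹ := by linarith
    have h11 : 0 < c - c' := by
      by_contra hcon
      push Not at hcon
      have : (c - c') * ((K n).gap)⁻¹ ≤ 0 := mul_nonpos_of_nonpos_of_nonneg hcon hb0.le
      linarith
    have h12 : (c - c') * ((K n).gap)⁻¹ ≤ (c - c') * (1 / (99 / 1000)) := by gcongr
    have h13 : (2 * (c - c') + 1) / (99 / 1000) = 2 * ((c - c') * (1 / (99 / 1000))) +
      1 / (99 / 1000) := by ring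
    rw [h13] at hn7
    have : (0 : ℝ) < 1 / (99 / 1000) := by norm_num
    linarith

end Pool.Agent.H13.En
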