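import Pool.Agent.H13.En.Semi

set_option autoImplicit false
set_option linter.unusedSectionVars false
open Finset Matrix

namespace Pool.Agent.H13.En

lemma sum_fin_ite (n : ℕ) (H : ℕ → ℝ) (k : ℕ) :
    ∑ y : Fin n, (if (y : ℕ) = k then H y else 0) = if k < n then H k else 0 := by
  by_cases h : k < n
  · rw [if_pos h, Finset.sum_eq_single ⟨k, h⟩]
    · simp
    · intro b _ hb
      rw [if_neg]
      intro h2
      apply hb
      exact Fin.ext h2
    · intro h2
      exact absurd (Finset.mem_univ _) h2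
  · rw [if_neg h]
    refine Finset.sum_eq_zero (fun y _ => ?_)
    rw [if_neg]
    intro h2
    have := y.2
    omega

/-- conductances: nearest-neighbour edges `{h-1, h}` with conductance `a h`, and the edge
`{0, k}` with conductance `g` -/
noncomputable def cond (n : ℕ) (a : ℕ → ℝ) (k : ℕ) (g : ℝ) : Matrix (Fin n) (Fin n) ℝ :=
  fun x y => (if (y : ℕ) = x + 1 then a y else 0) + (if (x : ℕ) = y + 1 then a x else 0) +
    (if (y : ℕ) = k ∧ (x : ℕ) = 0 then g else 0) + (if (x : ℕ) = k ∧ (y : ℕ) = 0 then g else 0)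

lemma cond_symm (n : ℕ) (a : ℕ → ℝ) (k : ℕ) (g : ℝ) (x y : Fin n) :
    cond n a k g x y = cond n a k g y x := by
  unfold cond
  ring

lemma cond_nonneg (n : ℕ) (a : ℕ → ℝ) (ha : ∀ h, 0 ≤ a h) (k : ℕ) (g : ℝ) (hg : 0 ≤ g)
    (x y : Fin n) : 0 ≤ cond n a k g x y := by
  unfold cond
  have h1 := ha y
  have h2 := ha x
  have e1 : 0 ≤ (if (y : ℕ) = x + 1 then a y else 0) := by split_ifs <;> simp [h1]
  have e2 : 0 ≤ (if (x : ℕ) = y + 1 then a x else 0) := by split_ifs <;> simp [h2]
  have e3 : 0 ≤ (if (y : ℕ) = k ∧ (x : ℕ) = 0 then g else 0) := by split_ifs <;> simp [hg]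
  have e4 : 0 ≤ (if (x : ℕ) = k ∧ (y : ℕ) = 0 then g else 0) := by split_ifs <;> simp [hg]
  linarith

lemma cond_sum (n : ℕ) (a : ℕ → ℝ) (k : ℕ) (g : ℝ) (x : Fin n) (F : ℕ → ℝ) :
    ∑ y, cond n a k g x y * (F y - F x) =
      (if (x : ℕ) + 1 < n then a (x + 1) * (F (x + 1) - F x) else 0) +
      (if 1 ≤ (x : ℕ) then a x * (F (x - 1) - F x) else 0) +
      (if (x : ℕ) = 0 then (if k < n then g * (F k - F x) else 0) else 0) +
      (if (x : ℕ) = k then (if 0 < n then g * (F 0 - F x) else 0) else 0) := by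
  have e : ∀ y : Fin n, cond n a k g x y * (F y - F x) =
      (if (y : ℕ) = x + 1 then a y * (F y - F x) else 0) +
      (if 1 ≤ (x : ℕ) then (if (y : ℕ) = x - 1 then a x * (F y - F x) else 0) else 0) +
      (if (x : ℕ) = 0 then (if (y : ℕ) = k then g * (F y - F x) else 0) else 0) +
      (if (x : ℕ) = k then (if (y : ℕ) = 0 then g * (F y - F x) else 0) else 0) := by
    intro y
    unfold cond
    have e2 : (if (x : ℕ) = y + 1 then a x else 0) =
        (if 1 ≤ (x : ℕ) then (if (y : ℕ) = x - 1 then a x else 0) else 0) := by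
      by_cases h1 : (x : ℕ) = y + 1
      · rw [if_pos h1, if_pos (by omega), if_pos (by omega)]
      · rw [if_neg h1]
        by_cases h2 : 1 ≤ (x : ℕ)
        · rw [if_pos h2, if_neg (by omega)]
        · rw [if_neg h2]
    have e3 : (if (y : ℕ) = k ∧ (x : ℕ) = 0 then g else 0) =
        (if (x : ℕ) = 0 then (if (y : ℕ) = k then g else 0) else 0) := by
      by_cases h1 : (x : ℕ) = 0 <;> by_cases h2 : (y : ℕ) = k <;> simp [h1, h2]
    have e4 : (if (x : ℕ) = k ∧ (y : ℕ) = 0 then g else 0) =
        (if (x : ℕ) = k then (if (y : ℕ) = 0 then g else 0) else 0) := by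
      by_cases h1 : (x : ℕ) = k <;> by_cases h2 : (y : ℕ) = 0 <;> simp [h1, h2]
    rw [e2, e3, e4]
    simp only [add_mul, ite_mul, zero_mul]
  simp only [e, Finset.sum_add_distrib]
  rw [sum_fin_ite n (fun y => a y * (F y - F x)) (x + 1)]
  have hx := x.2
  congr 1
  · congr 1
    · congr 1
      by_cases h1 : 1 ≤ (x : ℕ)
      · simp only [if_pos h1]
        rw [sum_fin_ite n (fun y => a x * (F y - F x)) (x - 1), if_pos (by omega)]
      · simp only [if_neg h1, Finset.sum_const_zero]
    · by_cases h1 : (x : ℕ) = 0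
      · simp only [if_pos h1]
        rw [sum_fin_ite n (fun y => g * (F y - F x)) k]
      · simp only [if_neg h1, Finset.sum_const_zero]
  · by_cases h1 : (x : ℕ) = k
    · simp only [if_pos h1]
      rw [sum_fin_ite n (fun y => g * (F y - F x)) 0]
    · simp only [if_neg h1, Finset.sum_const_zero]

/-- generator of a network -/
noncomputable def gen {V : Type} [Fintype V] [DecidableEq V] (C : Matrix V V ℝ) (w : V → ℝ) :
    Matrix V V ℝ := fun x y => (C x y - if x = y then ∑ z, C x z else 0) / w x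

section gen
variable {V : Type} [Fintype V] [DecidableEq V] (C : Matrix V V ℝ) (w : V → ℝ)

lemma gen_mulVec (F : V → ℝ) (x : V) :
    (gen C w *ᵥ F) x = (∑ y, C x y * (F y - F x)) / w x := by
  simp only [Matrix.mulVec, dotProduct, gen]
  have e : ∀ y, (C x y - if x = y then ∑ z, C x z else 0) / w x * F y =
      (C x y * F y - if x = y then (∑ z, C x z) * F x else 0) / w x := by
    intro y
    by_cases h : x = y
    · subst h; simp; ring
    · simp [h]; ring
  simp only [e]
  rw [← Finset.sum_div, Finset.sum_sub_distrib, Finset.sum_ite_eq, if_pos (Finset.mem_univ x)]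
  simp only [mul_sub, Finset.sum_sub_distrib, Finset.sum_mul]

lemma gen_row (x : V) : ∑ y, gen C w x y = 0 := by
  have h := gen_mulVec C w (fun _ => 1) x
  simp only [Matrix.mulVec, dotProduct, mul_one, sub_self, mul_zero, Finset.sum_const_zero,
    zero_div] at h
  exact h

lemma gen_off (x y : V) (h : x ≠ y) : gen C w x y = C x y / w x := by
  unfold gen
  rw [if_neg h, sub_zero]

lemma gen_rev (hC : ∀ x y, C x y = C y x) (hw : ∀ x, 0 < w x) (x y : V) :
    w x * gen C w x y = w y * gen C w y x := by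
  by_cases h : x = y
  · rw [h]
  · rw [gen_off C w x y h, gen_off C w y x (Ne.symm h), mul_div_cancel₀ _ (hw x).ne',
      mul_div_cancel₀ _ (hw y).ne', hC]

lemma gen_sto (hC : ∀ x y, 0 ≤ C x y) (hw : ∀ x, 0 < w x) (h : ∀ x, ∑ z, C x z ≤ w x) :
    Sto (1 + gen C w) := by
  constructor
  · intro x y
    rw [Matrix.add_apply, Matrix.one_apply]
    by_cases hxy : x = y
    · subst hxy
      rw [if_pos rfl]
      unfold gen
      rw [if_pos rfl]
      have h1 := hC x x
      have h2 := h x
      have h3 := hw x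
      have e : 1 + (C x x - ∑ z, C x z) / w x = (w x + C x x - ∑ z, C x z) / w x := by
        field_simp
        ring
      rw [e]
      apply div_nonneg _ h3.le
      linarith
    · rw [if_neg hxy, gen_off C w x y hxy, zero_add]
      exact div_nonneg (hC x y) (hw x).le
  · intro x
    simp only [Matrix.add_apply, Finset.sum_add_distrib, gen_row]
    simp [Matrix.one_apply]

end gen

end Pool.Agent.H13.En
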