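import Mathlib

set_option autoImplicit false
set_option linter.unusedSectionVars false
open Finset Matrix

namespace Pool.Agent.H13.En

variable {V : Type} [Fintype V] [DecidableEq V]

set_option backward.isDefEq.respectTransparency false in
lemma exp_hasSum (A : Matrix V V ℝ) :
    HasSum (fun n : ℕ => ((n.factorial : ℝ)⁻¹) • A ^ n) (NormedSpace.exp A) := by
  open scoped Matrix.Norms.Operator in
  exact NormedSpace.exp_series_hasSum_exp' (𝕂 := ℝ) A

lemma exp_entry (A : Matrix V V ℝ) (x y : V) :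
    HasSum (fun n : ℕ => ((n.factorial : ℝ)⁻¹) * (A ^ n) x y) ((NormedSpace.exp A) x y) := by
  have h := exp_hasSum A
  have h2 := (Pi.hasSum.1 (Pi.hasSum.1 h x) y)
  simpa using h2

lemma exp_shift (M : Matrix V V ℝ) (s : ℝ) :
    NormedSpace.exp (s • (M - 1)) = Real.exp (-s) • NormedSpace.exp (s • M) := by
  have h1 : s • (M - 1) = s • M + (-s) • (1 : Matrix V V ℝ) := by
    rw [smul_sub, neg_smul, sub_eq_add_neg]
  have hc : Commute (s • M) ((-s) • (1 : Matrix V V ℝ)) := by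
    unfold Commute SemiconjBy
    simp
  rw [h1, Matrix.exp_add_of_commute _ _ hc]
  have h2 : (-s) • (1 : Matrix V V ℝ) = Matrix.diagonal (fun _ => -s) := by
    rw [← Matrix.diagonal_one, ← Matrix.diagonal_smul]
    congr 1
    funext x
    simp
  have h3 : NormedSpace.exp ((-s) • (1 : Matrix V V ℝ)) = Real.exp (-s) • (1 : Matrix V V ℝ) := by
    rw [h2, Matrix.exp_diagonal, ← Matrix.diagonal_one, ← Matrix.diagonal_smul]
    congr 1
    funext x
    rw [Pi.coe_exp]
    simp [Real.exp_eq_exp_ℝ]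
  rw [h3]
  simp

lemma heat_entry (M : Matrix V V ℝ) (s : ℝ) (x y : V) :
    HasSum (fun n : ℕ => Real.exp (-s) * (s ^ n / n.factorial) * (M ^ n) x y)
      ((NormedSpace.exp (s • (M - 1))) x y) := by
  rw [exp_shift]
  have h := (exp_entry (s • M) x y).mul_left (Real.exp (-s))
  simp only [Matrix.smul_apply, smul_eq_mul]
  have e : (fun n : ℕ => Real.exp (-s) * (s ^ n / n.factorial) * (M ^ n) x y) =
      fun i : ℕ => Real.exp (-s) * ((i.factorial : ℝ)⁻¹ * ((s • M) ^ i) x y) := by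
    funext n
    rw [smul_pow, Matrix.smul_apply, smul_eq_mul]
    ring
  rw [e]
  exact h

lemma pois (s q : ℝ) : HasSum (fun n : ℕ => Real.exp (-s) * (s ^ n / n.factorial) * q ^ n)
    (Real.exp ((q - 1) * s)) := by
  have h := (NormedSpace.expSeries_div_hasSum_exp (q * s)).mul_left (Real.exp (-s))
  rw [← Real.exp_eq_exp_ℝ, ← Real.exp_add] at h
  have e : -s + q * s = (q - 1) * s := by ring
  rw [e] at h
  have e2 : (fun n : ℕ => Real.exp (-s) * (s ^ n / n.factorial) * q ^ n) =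
      fun i : ℕ => Real.exp (-s) * ((q * s) ^ i / (i.factorial : ℝ)) := by
    funext n
    rw [mul_pow]
    ring
  rw [e2]
  exact h

lemma heat_vec (M : Matrix V V ℝ) (s : ℝ) (f : V → ℝ) (x : V) :
    HasSum (fun n : ℕ => Real.exp (-s) * (s ^ n / n.factorial) * ((M ^ n) *ᵥ f) x)
      (((NormedSpace.exp (s • (M - 1))) *ᵥ f) x) := by
  have h : HasSum (fun n : ℕ => ∑ y, Real.exp (-s) * (s ^ n / n.factorial) * (M ^ n) x y * f y)
      (∑ y, (NormedSpace.exp (s • (M - 1))) x y * f y) :=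
    hasSum_sum (fun y _ => (heat_entry M s x y).mul_right (f y))
  have e : (fun n : ℕ => ∑ y, Real.exp (-s) * (s ^ n / n.factorial) * (M ^ n) x y * f y) =
      fun n : ℕ => Real.exp (-s) * (s ^ n / n.factorial) * ((M ^ n) *ᵥ f) x := by
    funext n
    simp only [Matrix.mulVec, dotProduct, Finset.mul_sum]
    refine Finset.sum_congr rfl (fun y _ => by ring)
  rw [e] at h
  exact h

lemma heat_le (M : Matrix V V ℝ) (f : V → ℝ) (x : V) (α β q : ℝ)
    (h : ∀ n : ℕ, ((M ^ n) *ᵥ f) x ≤ α + β * q ^ n) (s : ℝ) (hs : 0 ≤ s) :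
    ((NormedSpace.exp (s • (M - 1))) *ᵥ f) x ≤ α + β * Real.exp ((q - 1) * s) := by
  have h1 := ((pois s 1).mul_left α).add ((pois s q).mul_left β)
  rw [sub_self, zero_mul, Real.exp_zero, mul_one] at h1
  refine hasSum_le (fun n => ?_) (heat_vec M s f x) h1
  have h2 := h n
  have h3 : 0 ≤ Real.exp (-s) * (s ^ n / n.factorial) := by positivity
  have h4 := mul_le_mul_of_nonneg_left h2 h3
  rw [one_pow]
  linarith

lemma le_heat (M : Matrix V V ℝ) (f : V → ℝ) (x : V) (α β q : ℝ)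
    (h : ∀ n : ℕ, α + β * q ^ n ≤ ((M ^ n) *ᵥ f) x) (s : ℝ) (hs : 0 ≤ s) :
    α + β * Real.exp ((q - 1) * s) ≤ ((NormedSpace.exp (s • (M - 1))) *ᵥ f) x := by
  have h1 := ((pois s 1).mul_left α).add ((pois s q).mul_left β)
  rw [sub_self, zero_mul, Real.exp_zero, mul_one] at h1
  refine hasSum_le (fun n => ?_) h1 (heat_vec M s f x)
  have h2 := h n
  have h3 : 0 ≤ Real.exp (-s) * (s ^ n / n.factorial) := by positivity
  have h4 := mul_le_mul_of_nonneg_left h2 h3
  rw [one_pow]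
  linarith

lemma mulVec_mono {A : Matrix V V ℝ} (hA : ∀ x y, 0 ≤ A x y) {f g : V → ℝ} (h : ∀ x, f x ≤ g x)
    (x : V) : (A *ᵥ f) x ≤ (A *ᵥ g) x := by
  simp only [Matrix.mulVec, dotProduct]
  exact Finset.sum_le_sum (fun y _ => mul_le_mul_of_nonneg_left (h y) (hA x y))

lemma pow_nonneg' {M : Matrix V V ℝ} (hM : ∀ x y, 0 ≤ M x y) (n : ℕ) : ∀ x y, 0 ≤ (M ^ n) x y := by
  induction n with
  | zero =>
    intro x y
    rw [pow_zero, Matrix.one_apply]
    split_ifs <;> norm_num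
  | succ n ih =>
    intro x y
    rw [pow_succ, Matrix.mul_apply]
    exact Finset.sum_nonneg (fun z _ => mul_nonneg (ih x z) (hM z y))

/-- stochastic matrices -/
structure Sto (M : Matrix V V ℝ) : Prop where
  nn : ∀ x y, 0 ≤ M x y
  row : ∀ x, ∑ y, M x y = 1

lemma Sto.const {M : Matrix V V ℝ} (h : Sto M) (d : ℝ) (x : V) : (M *ᵥ (fun _ => d)) x = d := by
  simp only [Matrix.mulVec, dotProduct]
  rw [← Finset.sum_mul, h.row, one_mul]

lemma Sto.pow {M : Matrix V V ℝ} (h : Sto M) (n : ℕ) : Sto (M ^ n) := by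
  refine ⟨pow_nonneg' h.nn n, ?_⟩
  induction n with
  | zero =>
    intro x
    simp [Matrix.one_apply]
  | succ n ih =>
    intro x
    simp only [pow_succ, Matrix.mul_apply]
    rw [Finset.sum_comm]
    simp only [← Finset.mul_sum, h.row, mul_one]
    exact ih x

lemma powU {M : Matrix V V ℝ} (h : Sto M) (f : V → ℝ) (q d : ℝ) (hq : 0 ≤ q)
    (hf : ∀ x, (M *ᵥ f) x ≤ q * f x + d) (n : ℕ) :
    ∀ x, ((M ^ n) *ᵥ f) x ≤ q ^ n * f x + d * ∑ j ∈ Finset.range n, q ^ j := by
  induction n with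
  | zero => intro x; simp
  | succ n ih =>
    intro x
    have e1 : (M ^ (n + 1)) *ᵥ f = M *ᵥ ((M ^ n) *ᵥ f) := by
      rw [pow_succ', Matrix.mulVec_mulVec]
    rw [e1]
    have h1 := mulVec_mono h.nn ih x
    have e2 : (fun x => q ^ n * f x + d * ∑ j ∈ Finset.range n, q ^ j) =
        q ^ n • f + fun _ => d * ∑ j ∈ Finset.range n, q ^ j := by
      funext x
      simp
    rw [e2, Matrix.mulVec_add, Matrix.mulVec_smul] at h1
    simp only [Pi.add_apply, Pi.smul_apply, smul_eq_mul] at h1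
    rw [h.const] at h1
    have h2 := mul_le_mul_of_nonneg_left (hf x) (pow_nonneg hq n)
    rw [Finset.sum_range_succ]
    have e3 : q ^ n * (q * f x + d) = q ^ (n + 1) * f x + d * q ^ n := by ring
    rw [e3] at h2
    linarith

lemma powL {M : Matrix V V ℝ} (h : Sto M) (p w : V → ℝ) (a : ℝ) (ha : 0 ≤ a)
    (hw : ∀ x, (M *ᵥ w) x ≤ a * w x) (hp : ∀ x, p x - w x ≤ (M *ᵥ p) x) (n : ℕ) :
    ∀ x, p x - w x * ∑ j ∈ Finset.range n, a ^ j ≤ ((M ^ n) *ᵥ p) x := by
  induction n with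
  | zero => intro x; simp
  | succ n ih =>
    intro x
    have e1 : (M ^ (n + 1)) *ᵥ p = (M ^ n) *ᵥ (M *ᵥ p) := by
      rw [pow_succ, Matrix.mulVec_mulVec]
    rw [e1]
    have h1 := mulVec_mono (h.pow n).nn hp x
    have e2 : (fun x => p x - w x) = p - w := rfl
    rw [e2, Matrix.mulVec_sub] at h1
    simp only [Pi.sub_apply] at h1
    have h2 := powU h w a 0 ha (fun x => by rw [add_zero]; exact hw x) n x
    rw [zero_mul, add_zero] at h2
    have h3 := ih x
    rw [Finset.sum_range_succ]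
    have e3 : w x * (∑ j ∈ Finset.range n, a ^ j + a ^ n) =
      w x * ∑ j ∈ Finset.range n, a ^ j + a ^ n * w x := by ring
    rw [e3]
    linarith

lemma geom_le (q : ℝ) (h0 : 0 ≤ q) (h1 : q < 1) (n : ℕ) :
    ∑ j ∈ Finset.range n, q ^ j ≤ 1 / (1 - q) := by
  have h2 : 0 < 1 - q := by linarith
  rw [le_div_iff₀ h2]
  have := geom_sum_mul q n
  have h3 : 0 ≤ q ^ n := pow_nonneg h0 n
  nlinarith

lemma geom_le' (a : ℝ) (h1 : 1 < a) (n : ℕ) :
    ∑ j ∈ Finset.range n, a ^ j ≤ a ^ n / (a - 1) := by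
  have h2 : 0 < a - 1 := by linarith
  rw [le_div_iff₀ h2]
  have := geom_sum_mul a n
  linarith

/-- heat kernel facts for `exp(s(M-1))` -/
lemma heat_sto {M : Matrix V V ℝ} (h : Sto M) (s : ℝ) (hs : 0 ≤ s) :
    Sto (NormedSpace.exp (s • (M - 1))) := by
  constructor
  · intro x y
    refine (heat_entry M s x y).nonneg (fun n => ?_)
    have := (h.pow n).nn x y
    positivity
  · intro x
    have h1 := heat_le M (fun _ => 1) x 1 0 1 (fun n => by
      rw [(h.pow n).const]; simp) s hs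
    have h2 := le_heat M (fun _ => 1) x 1 0 1 (fun n => by
      rw [(h.pow n).const]; simp) s hs
    simp only [Matrix.mulVec, dotProduct, mul_one, zero_mul, add_zero] at h1 h2
    exact le_antisymm h1 h2

lemma heat_diag {M : Matrix V V ℝ} (h : Sto M) (s : ℝ) (hs : 0 ≤ s) (x : V) :
    Real.exp (-s) ≤ (NormedSpace.exp (s • (M - 1))) x x := by
  have h1 := heat_entry M s x x
  have h2 := le_hasSum h1 0 (fun n _ => by
    have := (h.pow n).nn x x
    positivity)
  simpa using h2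

lemma heatU {M : Matrix V V ℝ} (h : Sto M) (f : V → ℝ) (c d : ℝ) (hc0 : 0 < c) (hc : c ≤ 1)
    (hd : 0 ≤ d) (hf : ∀ x, (M *ᵥ f) x ≤ (1 - c) * f x + d) (s : ℝ) (hs : 0 ≤ s) (x : V) :
    ((NormedSpace.exp (s • (M - 1))) *ᵥ f) x ≤ Real.exp (-(c * s)) * f x + d / c := by
  have h1 := heat_le M f x (d / c) (f x) (1 - c) (fun n => by
    have h2 := powU h f (1 - c) d (by linarith) hf n x
    have h3 := geom_le (1 - c) (by linarith) (by linarith) n
    have h4 := mul_le_mul_of_nonneg_left h3 hd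
    rw [sub_sub_cancel, mul_one_div] at h4
    linarith) s hs
  have e : (1 - c - 1) * s = -(c * s) := by ring
  rw [e] at h1
  linarith

lemma heatU1 {M : Matrix V V ℝ} (h : Sto M) (f : V → ℝ) (d : ℝ)
    (hd : 0 ≤ d) (hf : ∀ x, (M *ᵥ f) x ≤ f x + d) (s : ℝ) (hs : 0 ≤ s) (x : V) :
    ((NormedSpace.exp (s • (M - 1))) *ᵥ f) x ≤ f x + d * Real.exp s := by
  have h1 := heat_le M f x (f x) d 2 (fun n => by
    have h2 := powU h f 1 d (by norm_num) (fun x => by rw [one_mul]; exact hf x) n x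
    simp only [one_pow, Finset.sum_const, Finset.card_range, nsmul_eq_mul, mul_one, one_mul] at h2
    have h3 : (n : ℝ) ≤ 2 ^ n := by exact_mod_cast Nat.lt_two_pow_self.le
    have h4 := mul_le_mul_of_nonneg_left h3 hd
    linarith) s hs
  have e : (2 - 1) * s = s := by ring
  rw [e] at h1
  exact h1

lemma heatL {M : Matrix V V ℝ} (h : Sto M) (p w : V → ℝ) (c : ℝ) (hc : 0 < c)
    (hw0 : ∀ x, 0 ≤ w x)
    (hw : ∀ x, (M *ᵥ w) x ≤ (1 + c) * w x) (hp : ∀ x, p x - w x ≤ (M *ᵥ p) x)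
    (s : ℝ) (hs : 0 ≤ s) (x : V) :
    p x - w x / c * Real.exp (c * s) ≤ ((NormedSpace.exp (s • (M - 1))) *ᵥ p) x := by
  have h1 := le_heat M p x (p x) (-(w x / c)) (1 + c) (fun n => by
    have h2 := powL h p w (1 + c) (by linarith) hw hp n x
    have h3 := geom_le' (1 + c) (by linarith) n
    have h4 := mul_le_mul_of_nonneg_left h3 (hw0 x)
    rw [add_sub_cancel_left] at h4
    have e : w x * ((1 + c) ^ n / c) = w x / c * (1 + c) ^ n := by ring
    rw [e] at h4
    linarith) s hs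
  have e : (1 + c - 1) * s = c * s := by ring
  rw [e] at h1
  linarith

/-- contraction -/
lemma contr {K : Matrix V V ℝ} (h : Sto K) (o : V) (ho : ∀ x, 1 / 2 ≤ K x o) (y : V) (k : ℕ) :
    ∃ a : ℝ, ∀ x, a ≤ (K ^ k) x y ∧ (K ^ k) x y ≤ a + (1 / 2) ^ k := by
  induction k with
  | zero =>
    refine ⟨0, fun x => ?_⟩
    rw [pow_zero, Matrix.one_apply]
    split_ifs <;> norm_num
  | succ k ih =>
    obtain ⟨a, ha⟩ := ih
    refine ⟨((K ^ k) o y + a) / 2, fun x => ?_⟩
    have e : (K ^ (k + 1)) x y = 1 / 2 * (K ^ k) o y +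
        ((K x o - 1 / 2) * (K ^ k) o y + ∑ z ∈ Finset.univ.erase o, K x z * (K ^ k) z y) := by
      rw [pow_succ', Matrix.mul_apply, ← Finset.add_sum_erase _ _ (Finset.mem_univ o)]
      ring
    have hs : K x o + ∑ z ∈ Finset.univ.erase o, K x z = 1 := by
      rw [Finset.add_sum_erase _ _ (Finset.mem_univ o)]
      exact h.row x
    have h1 : (∑ z ∈ Finset.univ.erase o, K x z) * a ≤
        ∑ z ∈ Finset.univ.erase o, K x z * (K ^ k) z y := by
      rw [Finset.sum_mul]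
      exact Finset.sum_le_sum (fun z _ => mul_le_mul_of_nonneg_left (ha z).1 (h.nn x z))
    have h2 : ∑ z ∈ Finset.univ.erase o, K x z * (K ^ k) z y ≤
        (∑ z ∈ Finset.univ.erase o, K x z) * (a + (1 / 2) ^ k) := by
      rw [Finset.sum_mul]
      exact Finset.sum_le_sum (fun z _ => mul_le_mul_of_nonneg_left (ha z).2 (h.nn x z))
    have h3 := mul_le_mul_of_nonneg_left (ha o).1 (sub_nonneg.2 (ho x))
    have h4 := mul_le_mul_of_nonneg_left (ha o).2 (sub_nonneg.2 (ho x))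
    have hsum : ∑ z ∈ Finset.univ.erase o, K x z = 1 - K x o := by linarith
    rw [hsum] at h1 h2
    have e5 : (1 / 2 : ℝ) ^ (k + 1) = 1 / 2 * (1 / 2) ^ k := by ring
    rw [e, e5]
    constructor <;> nlinarith

end Pool.Agent.H13.En
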